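import Mathlib
import Pool.Agent.Results.MP_2c58a9_co.ManyPerms

/-!
Raising the dimension of a separated family of stubby sets.
-/

set_option autoImplicit false

open Pool.Agent.Results.MP_2c58a9_co.ManyPerms Filter Topology

namespace Pool.Agent.Y580.GP

/-! ## Affine independence -/

/-- affine independence of finitely many points -/
def Ind {k D : ℕ} (p : Fin k → E D) : Prop :=
  ∀ v : Fin k → ℝ, ∑ i, v i = 0 → ∑ i, v i • p i = 0 → v = 0

lemma ind_iff {k D : ℕ} (p : Fin k → E D) : Ind p ↔ AffineIndependent ℝ p := by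
  classical
  rw [affineIndependent_iff]
  constructor
  · intro h s w hs hp e he
    have h1 := h (fun i => if i ∈ s then w i else 0) (by
      rw [Finset.sum_ite_mem, Finset.univ_inter]; exact hs) (by
      simp only [ite_smul, zero_smul]
      rw [Finset.sum_ite_mem, Finset.univ_inter]; exact hp)
    have h2 := congrFun h1 e
    simpa [he] using h2
  · intro h v hv hp
    funext i
    exact h Finset.univ v hv hp i (Finset.mem_univ i)

lemma exists_super {V : Type*} [AddCommGroup V] [Module ℝ V] [FiniteDimensional ℝ V]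
    (U : Submodule ℝ V) (m : ℕ) (h1 : Module.finrank ℝ U ≤ m) (h2 : m ≤ Module.finrank ℝ V) :
    ∃ W : Submodule ℝ V, U ≤ W ∧ Module.finrank ℝ W = m := by
  induction m, h1 using Nat.le_induction with
  | base => exact ⟨U, le_rfl, rfl⟩
  | succ m hm ih =>
    obtain ⟨W, hW, hWm⟩ := ih (by omega)
    obtain ⟨x, hx⟩ : ∃ x, x ∉ W := by
      by_contra h
      push Not at h
      have : W = ⊤ := by
        ext x
        simp [h x]
      rw [this, finrank_top] at hWm
      omega
    refine ⟨W ⊔ Submodule.span ℝ {x}, hW.trans le_sup_left, ?_⟩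
    have hx0 : x ≠ 0 := fun h => hx (h ▸ W.zero_mem)
    have h3 := Submodule.finrank_sup_add_finrank_inf_eq W (Submodule.span ℝ {x})
    have h4 : W ⊓ Submodule.span ℝ {x} = ⊥ := by
      rw [Submodule.eq_bot_iff]
      rintro y ⟨hy1, hy2⟩
      obtain ⟨a, rfl⟩ := Submodule.mem_span_singleton.1 hy2
      by_contra hne
      apply hx
      have ha : a ≠ 0 := by
        rintro rfl
        exact hne (zero_smul _ _)
      have := W.smul_mem a⁻¹ hy1
      rwa [smul_smul, inv_mul_cancel₀ ha, one_smul] at this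
    rw [h4, finrank_bot, finrank_span_singleton hx0, hWm] at h3
    omega

lemma sep_ind {e : ℕ} {ι : Type} {A : ι → Set (E (e + 2))} (h : Separated A)
    (f : Fin (e + 2) → ι) (hf : Function.Injective f)
    (p : Fin (e + 2) → E (e + 2)) (hp : ∀ i, p i ∈ A (f i)) : Ind p := by
  rw [ind_iff]
  by_contra hcon
  have h1 := (finrank_vectorSpan_le_iff_not_affineIndependent ℝ p (n := e) (by simp)).2 hcon
  obtain ⟨W, hW, hWm⟩ := exists_super (vectorSpan ℝ (Set.range p)) e h1 (by simp)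
  refine h f hf (AffineSubspace.mk' (p 0) W) ?_ ?_
  · rw [AffineSubspace.direction_mk']
    simpa using hWm
  · intro i
    refine ⟨p i, hp i, ?_⟩
    rw [SetLike.mem_coe, AffineSubspace.mem_mk']
    exact hW (vsub_mem_vectorSpan ℝ ⟨i, rfl⟩ ⟨0, rfl⟩)

lemma sep_of_ind {e : ℕ} {ι : Type} {A : ι → Set (E (e + 2))}
    (h : ∀ f : Fin (e + 2) → ι, Function.Injective f → ∀ p : Fin (e + 2) → E (e + 2),
      (∀ i, p i ∈ A (f i)) → Ind p) : Separated A := by
  intro f hf F hF hall
  choose p hp using hall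
  have hI := (ind_iff p).1 (h f hf p (fun i => (hp i).1))
  have h1 := hI.finrank_vectorSpan (n := e + 1) (by simp)
  have h2 : vectorSpan ℝ (Set.range p) ≤ F.direction := by
    rw [← direction_affineSpan]
    apply AffineSubspace.direction_le
    rw [affineSpan_le]
    rintro _ ⟨i, rfl⟩
    exact (hp i).2
  have h3 := Submodule.finrank_mono h2
  rw [h1, hF] at h3
  omega

/-! ## One more coordinate -/

/-- the point `(x, t)` -/
noncomputable def lift {D : ℕ} (x : E D) (t : ℝ) : E (D + 1) :=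
  WithLp.toLp 2 (Fin.snoc (α := fun _ => ℝ) (fun i => x i) t)

/-- the projection forgetting the last coordinate -/
noncomputable def prj {D : ℕ} : E (D + 1) →ₗ[ℝ] E D where
  toFun q := WithLp.toLp 2 (fun i => q (Fin.castSucc i))
  map_add' x y := by ext i; simp
  map_smul' a x := by ext i; simp

lemma lift_castSucc {D : ℕ} (x : E D) (t : ℝ) (i : Fin D) : lift x t (Fin.castSucc i) = x i := by
  simp [lift]

lemma lift_last {D : ℕ} (x : E D) (t : ℝ) : lift x t (Fin.last D) = t := by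
  simp [lift]

lemma prj_apply {D : ℕ} (q : E (D + 1)) (i : Fin D) : prj q i = q (Fin.castSucc i) := rfl

lemma prj_lift {D : ℕ} (x : E D) (t : ℝ) : prj (lift x t) = x := by
  ext i
  rw [prj_apply, lift_castSucc]

lemma lift_sub {D : ℕ} (x y : E D) (t s : ℝ) : lift x t - lift y s = lift (x - y) (t - s) := by
  ext i
  refine Fin.lastCases ?_ (fun j => ?_) i
  · rw [PiLp.sub_apply, lift_last, lift_last, lift_last]
  · rw [PiLp.sub_apply, lift_castSucc, lift_castSucc, lift_castSucc, PiLp.sub_apply]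

lemma lift_neg {D : ℕ} (x : E D) : -lift x 0 = lift (-x) 0 := by
  ext i
  refine Fin.lastCases ?_ (fun j => ?_) i
  · rw [PiLp.neg_apply, lift_last, lift_last, neg_zero]
  · rw [PiLp.neg_apply, lift_castSucc, lift_castSucc, PiLp.neg_apply]

lemma norm_sq_split {D : ℕ} (q : E (D + 1)) :
    ‖q‖ ^ 2 = ‖prj q‖ ^ 2 + (q (Fin.last D)) ^ 2 := by
  rw [EuclideanSpace.norm_sq_eq, EuclideanSpace.norm_sq_eq, Fin.sum_univ_castSucc]
  simp [prj_apply]

lemma norm_prj_le {D : ℕ} (q : E (D + 1)) : ‖prj q‖ ≤ ‖q‖ := by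
  have h := norm_sq_split q
  apply le_of_sq_le_sq _ (norm_nonneg _)
  nlinarith [sq_nonneg (q (Fin.last D))]

lemma abs_last_le {D : ℕ} (q : E (D + 1)) : |q (Fin.last D)| ≤ ‖q‖ := by
  have h := norm_sq_split q
  apply abs_le_of_sq_le_sq _ (norm_nonneg _)
  nlinarith [sq_nonneg ‖prj q‖]

lemma norm_lift_zero {D : ℕ} (x : E D) : ‖lift x 0‖ = ‖x‖ := by
  have h := norm_sq_split (lift x 0)
  rw [prj_lift, lift_last] at h
  have h2 : ‖lift x 0‖ ^ 2 = ‖x‖ ^ 2 := by rw [h]; ring
  exact (pow_left_inj₀ (norm_nonneg _) (norm_nonneg _) two_ne_zero).1 h2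

lemma inner_lift {D : ℕ} (u x : E D) (t : ℝ) : inner ℝ (lift u 0) (lift x t) = inner ℝ u x := by
  rw [PiLp.inner_apply, PiLp.inner_apply, Fin.sum_univ_castSucc]
  simp only [lift_castSucc, lift_last]
  simp

/-! ## The lifted family -/

/-- index of the set over which the `i`-th lifted set lies -/
def rr (k : ℕ) (i : Fin (k + 2)) : Fin (k + 1) := ⟨min i.1 k, by omega⟩

lemma rr_castSucc (k : ℕ) (i : Fin (k + 1)) : rr k (Fin.castSucc i) = i := by
  apply Fin.ext
  simp only [rr, Fin.val_castSucc]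
  omega

/-- the lifted family -/
def LF {D k : ℕ} (A : Fin (k + 1) → Set (E D)) (y : Fin (k + 1) → E D) (ρ M : ℝ)
    (i : Fin (k + 2)) : Set (E (D + 1)) :=
  {q | prj q ∈ A (rr k i) ∧ ‖q - lift (y (rr k i)) (M ^ (i.1 + 1))‖ ≤ ρ}

lemma LF_eq {D k : ℕ} (A : Fin (k + 1) → Set (E D)) (y : Fin (k + 1) → E D) (ρ M : ℝ)
    (i : Fin (k + 2)) : LF A y ρ M i =
      (prj ⁻¹' A (rr k i)) ∩ Metric.closedBall (lift (y (rr k i)) (M ^ (i.1 + 1))) ρ := by
  ext q
  simp [LF, dist_eq_norm]

lemma LF_compact {D k : ℕ} {A : Fin (k + 1) → Set (E D)} (hA : ∀ i, IsCompact (A i))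
    (y : Fin (k + 1) → E D) (ρ M : ℝ) (i : Fin (k + 2)) : IsCompact (LF A y ρ M i) := by
  rw [LF_eq]
  apply IsCompact.inter_left (isCompact_closedBall _ _)
  exact (hA _).isClosed.preimage (LinearMap.continuous_of_finiteDimensional _)

lemma LF_convex {D k : ℕ} {A : Fin (k + 1) → Set (E D)} (hA : ∀ i, Convex ℝ (A i))
    (y : Fin (k + 1) → E D) (ρ M : ℝ) (i : Fin (k + 2)) : Convex ℝ (LF A y ρ M i) := by
  rw [LF_eq]
  exact ((hA _).linear_preimage _).inter (convex_closedBall _ _)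

lemma ball_in_ball {D : ℕ} {x y : E (D + 1)} {ρ : ℝ}
    (h : Metric.closedBall x 1 ⊆ Metric.closedBall y ρ) : ‖x - y‖ + 1 ≤ ρ := by
  rcases eq_or_ne x y with rfl | hxy
  · have h1 : x + EuclideanSpace.single 0 (1 : ℝ) ∈ Metric.closedBall x 1 := by
      simp [dist_eq_norm]
    have h2 := h h1
    simpa [dist_eq_norm] using h2
  · have hn : 0 < ‖x - y‖ := norm_pos_iff.2 (sub_ne_zero.2 hxy)
    have h1 : x + (‖x - y‖⁻¹) • (x - y) ∈ Metric.closedBall x 1 := by
      rw [Metric.mem_closedBall, dist_eq_norm, add_sub_cancel_left, norm_smul, norm_inv, norm_norm,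
        inv_mul_cancel₀ hn.ne']
    have h2 := h h1
    rw [Metric.mem_closedBall, dist_eq_norm] at h2
    have h3 : x + (‖x - y‖⁻¹) • (x - y) - y = (1 + ‖x - y‖⁻¹) • (x - y) := by
      rw [add_smul, one_smul]; abel
    rw [h3, norm_smul, Real.norm_of_nonneg (by positivity), add_mul, one_mul,
      inv_mul_cancel₀ hn.ne'] at h2
    exact h2

lemma LF_stubby {D k : ℕ} {A : Fin (k + 1) → Set (E (D + 1))} {y x : Fin (k + 1) → E (D + 1)}
    {ρ : ℝ} (hx : ∀ i, Metric.closedBall (x i) 1 ⊆ A i) (hy : ∀ i, A i ⊆ Metric.closedBall (y i) ρ)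
    (M : ℝ) (i : Fin (k + 2)) : Stubby ρ (LF A y ρ M i) := by
  refine ⟨⟨lift (x (rr k i)) (M ^ (i.1 + 1)), ?_⟩, ⟨lift (y (rr k i)) (M ^ (i.1 + 1)), ?_⟩⟩
  · intro q hq
    rw [Metric.mem_closedBall, dist_eq_norm] at hq
    refine ⟨hx _ ?_, ?_⟩
    · rw [Metric.mem_closedBall, dist_eq_norm]
      have h1 := norm_prj_le (q - lift (x (rr k i)) (M ^ (i.1 + 1)))
      rw [map_sub, prj_lift] at h1
      exact h1.trans hq
    · have h1 := ball_in_ball ((hx (rr k i)).trans (hy (rr k i)))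
      have h2 : ‖lift (x (rr k i)) (M ^ (i.1 + 1)) - lift (y (rr k i)) (M ^ (i.1 + 1))‖ =
          ‖x (rr k i) - y (rr k i)‖ := by
        rw [lift_sub, sub_self, norm_lift_zero]
      calc ‖q - lift (y (rr k i)) (M ^ (i.1 + 1))‖
          ≤ ‖q - lift (x (rr k i)) (M ^ (i.1 + 1))‖ +
            ‖lift (x (rr k i)) (M ^ (i.1 + 1)) - lift (y (rr k i)) (M ^ (i.1 + 1))‖ :=
            norm_sub_le_norm_sub_add_norm_sub _ _ _
        _ ≤ ρ := by rw [h2]; linarith
  · rw [LF_eq]
    exact Set.inter_subset_right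

end Pool.Agent.Y580.GP
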