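import Mathlib
import Pool.Agent.Y580.GP.Lift

/-!
The lifted family is separated when the heights grow fast.
-/

set_option autoImplicit false

open Pool.Agent.Results.MP_2c58a9_co.ManyPerms Filter Topology

namespace Pool.Agent.Y580.GP

lemma compact_bound {m D : ℕ} (K : Fin m → Set (E D)) (hK : ∀ i, IsCompact (K i))
    (hI : ∀ p : Fin m → E D, (∀ i, p i ∈ K i) → Ind p) :
    ∃ c : ℝ, 0 < c ∧ ∀ p : Fin m → E D, (∀ i, p i ∈ K i) → ∀ v : Fin m → ℝ, ∑ i, v i = 0 →
      c * ∑ i, |v i| ≤ ‖∑ i, v i • p i‖ := by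
  let S : Set ((Fin m → E D) × (Fin m → ℝ)) :=
    (Set.univ.pi K) ×ˢ ({v | ∑ i, |v i| = 1} ∩ {v | ∑ i, v i = 0})
  have hS : IsCompact S := by
    refine (isCompact_univ_pi hK).prod ?_
    refine IsCompact.of_isClosed_subset (isCompact_closedBall (0 : Fin m → ℝ) 1) ?_ ?_
    · exact (isClosed_eq (by fun_prop) continuous_const).inter
        (isClosed_eq (by fun_prop) continuous_const)
    · rintro v ⟨hv, _⟩
      have hv' : ∑ i, |v i| = 1 := hv
      rw [mem_closedBall_zero_iff, pi_norm_le_iff_of_nonneg zero_le_one]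
      intro i
      rw [Real.norm_eq_abs, ← hv']
      exact Finset.single_le_sum (f := fun i => |v i|) (fun j _ => abs_nonneg _) (Finset.mem_univ i)
  have hcont : Continuous fun z : (Fin m → E D) × (Fin m → ℝ) => ‖∑ i, z.2 i • z.1 i‖ := by
    fun_prop
  obtain ⟨c, hc, hcb⟩ := hS.exists_forall_le' hcont.continuousOn (a := 0) (by
    rintro ⟨p, v⟩ ⟨hp, hv1, hv0⟩
    show 0 < ‖∑ i, v i • p i‖
    rw [norm_pos_iff]
    intro h0
    have h1 := hI p (fun i => hp i (Set.mem_univ i)) v hv0 h0
    have hv1' : ∑ i, |v i| = 1 := hv1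
    rw [h1] at hv1'
    simp at hv1')
  refine ⟨c, hc, ?_⟩
  intro p hp v hv
  rcases eq_or_lt_of_le (show 0 ≤ ∑ i, |v i| from Finset.sum_nonneg fun i _ => abs_nonneg _)
    with h0 | h0
  · rw [← h0, mul_zero]; exact norm_nonneg _
  · have h1 := hcb (p, fun i => (∑ i, |v i|)⁻¹ * v i) ⟨fun i _ => hp i, by
      show ∑ i, |(∑ i, |v i|)⁻¹ * v i| = 1
      simp only [abs_mul]
      rw [← Finset.mul_sum, abs_of_pos (inv_pos.2 h0), inv_mul_cancel₀ h0.ne'], by
      show ∑ i, (∑ i, |v i|)⁻¹ * v i = 0
      rw [← Finset.mul_sum, hv, mul_zero]⟩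
    have h2 : c ≤ ‖∑ i, ((∑ i, |v i|)⁻¹ * v i) • p i‖ := h1
    simp only [mul_smul] at h2
    rw [← Finset.smul_sum, norm_smul, norm_inv, Real.norm_of_nonneg h0.le,
      ← div_eq_inv_mul, le_div_iff₀ h0] at h2
    exact h2

/-- the main estimate -/
lemma sep_one {e k : ℕ} {A : Fin (k + 1) → Set (E (e + 2))} (hA : ∀ i, IsCompact (A i))
    (hs : Separated A) (y : Fin (k + 1) → E (e + 2)) {ρ : ℝ} (hρ : 0 ≤ ρ)
    (f : Fin (e + 3) → Fin (k + 2)) (hf : Function.Injective f) :
    ∀ᶠ M : ℝ in atTop, ∀ q : Fin (e + 3) → E (e + 3), (∀ j, q j ∈ LF A y ρ M (f j)) → Ind q := by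
  obtain ⟨js, -, hjs⟩ := Finset.exists_max_image (Finset.univ : Finset (Fin (e + 3))) f
    ⟨0, Finset.mem_univ _⟩
  have hlow : ∀ i : Fin (e + 2), (f (js.succAbove i)).1 < (f js).1 := by
    intro i
    have h1 := hjs (js.succAbove i) (Finset.mem_univ _)
    have h2 : f (js.succAbove i) ≠ f js := fun h => Fin.succAbove_ne js i (hf h)
    have h3 : (f (js.succAbove i)).1 ≠ (f js).1 := fun h => h2 (Fin.ext h)
    have h4 : (f (js.succAbove i)).1 ≤ (f js).1 := h1
    omega
  have htop : (f js).1 ≤ k + 1 := by have := (f js).2; omega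
  have hg : Function.Injective fun i : Fin (e + 2) => rr k (f (js.succAbove i)) := by
    intro a b hab
    have h1 := congrArg Fin.val hab
    simp only [rr] at h1
    have ha := hlow a
    have hb := hlow b
    have h2 : (f (js.succAbove a)).1 = (f (js.succAbove b)).1 := by omega
    exact Fin.succAbove_right_injective (hf (Fin.ext h2))
  obtain ⟨c, hc, hcb⟩ := compact_bound (fun i => A (rr k (f (js.succAbove i)))) (fun i => hA _)
    (fun p hp => sep_ind hs _ hg p hp)
  obtain ⟨R, hR⟩ : ∃ R : ℝ, ∀ i, ∀ x ∈ A i, ‖x‖ ≤ R := by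
    have h1 : IsCompact (⋃ i, A i) := isCompact_iUnion hA
    obtain ⟨R, hR⟩ := h1.isBounded.exists_norm_le
    exact ⟨R, fun i x hx => hR x (Set.mem_iUnion.2 ⟨i, hx⟩)⟩
  set B : ℝ := 1 + 2 * |R| / c with hB
  have hB0 : 1 ≤ B := by
    have : 0 ≤ 2 * |R| / c := by positivity
    linarith
  filter_upwards [eventually_ge_atTop 1, eventually_gt_atTop (B + (B + 1) * ρ)] with M hM1 hM2
  intro q hq v hv0 hvq
  -- the last coordinates
  have htl : ∀ j, |q j (Fin.last (e + 2)) - M ^ ((f j).1 + 1)| ≤ ρ := by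
    intro j
    have h1 := (hq j).2
    have h2 := abs_last_le (q j - lift (y (rr k (f j))) (M ^ ((f j).1 + 1)))
    rw [PiLp.sub_apply, lift_last] at h2
    exact h2.trans h1
  have hT : ∀ i : Fin (e + 2), |q (js.succAbove i) (Fin.last (e + 2))| ≤ M ^ (f js).1 + ρ := by
    intro i
    have h1 := htl (js.succAbove i)
    have h2 : M ^ ((f (js.succAbove i)).1 + 1) ≤ M ^ (f js).1 :=
      pow_le_pow_right₀ hM1 (by have := hlow i; omega)
    have h3 : 0 ≤ M ^ ((f (js.succAbove i)).1 + 1) := by positivity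
    rw [abs_le] at h1 ⊢
    constructor <;> linarith [h1.1, h1.2]
  have htt : M ^ ((f js).1 + 1) - ρ ≤ |q js (Fin.last (e + 2))| := by
    have h1 := htl js
    rw [abs_le] at h1
    exact le_trans (by linarith [h1.1]) (le_abs_self _)
  have hbig : B * (M ^ (f js).1 + ρ) < M ^ ((f js).1 + 1) - ρ := by
    have h1 : 1 ≤ M ^ (f js).1 := one_le_pow₀ hM1
    have h2 : (B + (B + 1) * ρ) * M ^ (f js).1 < M * M ^ (f js).1 :=
      mul_lt_mul_of_pos_right hM2 (by linarith)
    have h3 : (B + 1) * ρ ≤ (B + 1) * ρ * M ^ (f js).1 := by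
      have : 0 ≤ (B + 1) * ρ := by positivity
      nlinarith
    rw [pow_succ]
    nlinarith
  -- the relations
  have e0 : ∑ i, v (js.succAbove i) = -v js := by
    have := Fin.sum_univ_succAbove v js
    rw [hv0] at this
    linarith
  have e1 : ∑ i, v (js.succAbove i) • prj (q (js.succAbove i)) = -(v js • prj (q js)) := by
    have h1 := congrArg (prj : E (e + 3) →ₗ[ℝ] E (e + 2)) hvq
    rw [map_sum, map_zero, Fin.sum_univ_succAbove _ js] at h1
    simp only [map_smul] at h1
    exact eq_neg_of_add_eq_zero_right h1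
  have e2 : ∑ i, v (js.succAbove i) * q (js.succAbove i) (Fin.last (e + 2)) =
      -(v js * q js (Fin.last (e + 2))) := by
    have h1 := congrArg (fun z : E (e + 3) => z (Fin.last (e + 2))) hvq
    simp only [WithLp.ofLp_sum, Finset.sum_apply, PiLp.smul_apply, smul_eq_mul,
      PiLp.zero_apply] at h1
    rw [Fin.sum_univ_succAbove _ js] at h1
    linarith
  have hpm : ∀ i, prj (q (js.succAbove i)) ∈ A (rr k (f (js.succAbove i))) := fun i => (hq _).1
  have hfin : v js = 0 := by
    by_contra hne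
    have hpos : 0 < |v js| := abs_pos.2 hne
    -- correct the relation
    have h3 := hcb (fun i => prj (q (js.succAbove i))) hpm
      (fun i => v (js.succAbove i) + if i = 0 then v js else 0) (by
        rw [Finset.sum_add_distrib, e0]
        simp)
    have h4 : ∑ i : Fin (e + 2), (v (js.succAbove i) + if i = 0 then v js else 0) •
        prj (q (js.succAbove i)) = v js • (prj (q (js.succAbove 0)) - prj (q js)) := by
      simp only [add_smul, ite_smul, zero_smul]
      rw [Finset.sum_add_distrib, e1]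
      simp only [Finset.sum_ite_eq', Finset.mem_univ, if_true]
      rw [smul_sub]
      abel
    rw [h4, norm_smul, Real.norm_eq_abs] at h3
    have h5 : ‖prj (q (js.succAbove 0)) - prj (q js)‖ ≤ 2 * |R| := by
      have a1 := hR _ _ (hpm 0)
      have a2 := hR _ _ (hq js).1
      have a3 := norm_sub_le (prj (q (js.succAbove 0))) (prj (q js))
      have a4 := le_abs_self R
      linarith
    have h6 : ∑ i : Fin (e + 2), |v (js.succAbove i) + if i = 0 then v js else 0| ≤
        |v js| * (2 * |R| / c) := by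
      rw [← mul_div_assoc, le_div_iff₀ hc, mul_comm]
      exact h3.trans (mul_le_mul_of_nonneg_left h5 hpos.le)
    have h7 : ∑ i : Fin (e + 2), |v (js.succAbove i)| ≤ |v js| * B := by
      have : ∀ i : Fin (e + 2), |v (js.succAbove i)| ≤
          |v (js.succAbove i) + if i = 0 then v js else 0| + if i = 0 then |v js| else 0 := by
        intro i
        by_cases hi : i = 0
        · rw [if_pos hi, if_pos hi]
          have := abs_sub (v (js.succAbove i) + v js) (v js)
          rw [add_sub_cancel_right] at this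
          exact this
        · rw [if_neg hi, if_neg hi, add_zero, add_zero]
      have h8 := Finset.sum_le_sum fun i (_ : i ∈ Finset.univ) => this i
      rw [Finset.sum_add_distrib] at h8
      simp only [Finset.sum_ite_eq', Finset.mem_univ, if_true] at h8
      rw [hB, mul_add, mul_one]
      linarith
    have h9 : |v js| * |q js (Fin.last (e + 2))| ≤ |v js| * (B * (M ^ (f js).1 + ρ)) := by
      rw [← abs_mul, ← abs_neg, ← e2]
      calc |∑ i, v (js.succAbove i) * q (js.succAbove i) (Fin.last (e + 2))|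
          ≤ ∑ i, |v (js.succAbove i) * q (js.succAbove i) (Fin.last (e + 2))| :=
            Finset.abs_sum_le_sum_abs _ _
        _ ≤ ∑ i, |v (js.succAbove i)| * (M ^ (f js).1 + ρ) := by
            apply Finset.sum_le_sum
            intro i _
            rw [abs_mul]
            exact mul_le_mul_of_nonneg_left (hT i) (abs_nonneg _)
        _ = (∑ i, |v (js.succAbove i)|) * (M ^ (f js).1 + ρ) := by rw [Finset.sum_mul]
        _ ≤ |v js| * B * (M ^ (f js).1 + ρ) :=
            mul_le_mul_of_nonneg_right h7 (by positivity)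
        _ = _ := by ring
    have h10 := le_of_mul_le_mul_left h9 hpos
    linarith
  -- the remaining coefficients vanish
  have hind := sep_ind hs _ hg (fun i => prj (q (js.succAbove i))) hpm
  have hz := hind (fun i => v (js.succAbove i)) (by rw [e0, hfin, neg_zero]) (by
    rw [e1, hfin, zero_smul, neg_zero])
  funext j
  rcases eq_or_ne j js with rfl | hj
  · exact hfin
  · obtain ⟨i, rfl⟩ := Fin.exists_succAbove_eq hj
    exact congrFun hz i

lemma sep_ev {e k : ℕ} {A : Fin (k + 1) → Set (E (e + 2))} (hA : ∀ i, IsCompact (A i))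
    (hs : Separated A) (y : Fin (k + 1) → E (e + 2)) {ρ : ℝ} (hρ : 0 ≤ ρ) :
    ∀ᶠ M : ℝ in atTop, Separated (LF A y ρ M) := by
  have h : ∀ᶠ M : ℝ in atTop, ∀ f : Fin (e + 3) → Fin (k + 2), Function.Injective f →
      ∀ q : Fin (e + 3) → E (e + 3), (∀ j, q j ∈ LF A y ρ M (f j)) → Ind q := by
    rw [eventually_all]
    intro f
    by_cases hf : Function.Injective f
    · filter_upwards [sep_one hA hs y hρ f hf] with M hM _
      exact hM
    · exact Eventually.of_forall fun M h => absurd h hf
  filter_upwards [h] with M hM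
  exact sep_of_ind (e := e + 1) hM

end Pool.Agent.Y580.GP
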