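import Mathlib
import Pool.Agent.Y580.GP.Sep

/-!
The geometric permutations of the lifted family.
-/

set_option autoImplicit false

open Pool.Agent.Results.MP_2c58a9_co.ManyPerms Filter Topology

namespace Pool.Agent.Y580.GP

/-- the matrix of the orientation -/
noncomputable def om {d : ℕ} (u : E (d + 1)) (x : Fin (d + 1) → E (d + 1)) :
    Matrix (Fin (d + 1)) (Fin (d + 1)) ℝ :=
  Matrix.of fun i j => if i = 0 then u j else x i j - x 0 j

lemma orient_eq {d : ℕ} (u : E (d + 1)) (x : Fin (d + 1) → E (d + 1)) :
    orient u x = SignType.sign (om u x).det := rfl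

/-- two equal points -/
lemma om_det_zero {d : ℕ} (u : E (d + 1)) (x : Fin (d + 1) → E (d + 1)) {i j : Fin (d + 1)}
    (hij : i ≠ j) (h : x i = x j) : (om u x).det = 0 := by
  by_cases hi : i = 0
  · apply Matrix.det_eq_zero_of_row_eq_zero j
    intro l
    have hj : j ≠ 0 := fun h => hij (hi.trans h.symm)
    simp only [om, Matrix.of_apply, if_neg hj]
    rw [← h, hi, sub_self]
  · by_cases hj : j = 0
    · apply Matrix.det_eq_zero_of_row_eq_zero i
      intro l
      simp only [om, Matrix.of_apply, if_neg hi]
      rw [h, hj, sub_self]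
    · apply Matrix.det_zero_of_row_eq hij
      funext l
      simp only [om, Matrix.of_apply, if_neg hi, if_neg hj]
      rw [h]

/-- independent points of a hyperplane have an orientation -/
lemma om_det_ne {d : ℕ} (u : E (d + 1)) (hu : ‖u‖ = 1) (x : Fin (d + 1) → E (d + 1)) (c : ℝ)
    (hx : ∀ i, inner ℝ u (x i) = c) (hI : Ind x) : (om u x).det ≠ 0 := by
  intro h0
  obtain ⟨w, hw, hwm⟩ := Matrix.exists_vecMul_eq_zero_iff.2 h0
  have h1 : w 0 • u + ∑ i : Fin d, w i.succ • (x i.succ - x 0) = 0 := by
    ext l
    have h2 := congrFun hwm l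
    simp only [Matrix.vecMul, dotProduct, om, Matrix.of_apply, Pi.zero_apply] at h2
    rw [Fin.sum_univ_succ] at h2
    simp only [if_true, Fin.succ_ne_zero, if_false] at h2
    simp only [PiLp.add_apply, PiLp.smul_apply, smul_eq_mul, WithLp.ofLp_sum, Finset.sum_apply,
      PiLp.sub_apply, PiLp.zero_apply]
    exact h2
  have h3 := congrArg (fun z => inner ℝ u z) h1
  simp only [inner_add_right, inner_smul_right, inner_sum, inner_sub_right, hx, sub_self, mul_zero,
    Finset.sum_const_zero, add_zero, inner_zero_right, real_inner_self_eq_norm_sq, hu] at h3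
  have hw0 : w 0 = 0 := by simpa using h3
  rw [hw0, zero_smul, zero_add] at h1
  have h4 := hI (Fin.cons (-∑ i : Fin d, w i.succ) fun i => w i.succ) (by
    rw [Fin.sum_univ_succ]
    simp) (by
    rw [Fin.sum_univ_succ]
    simp only [Fin.cons_zero, Fin.cons_succ]
    simp only [smul_sub, Finset.sum_sub_distrib] at h1
    rw [neg_smul, Finset.sum_smul, neg_add_eq_sub]
    exact h1)
  apply hw
  funext i
  refine Fin.cases hw0 (fun j => ?_) i
  have := congrFun h4 j.succ
  simpa using this

/-- the lifted points -/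
noncomputable def lp {D k : ℕ} (p : Fin (k + 1) → E D) (M : ℝ) (i : Fin (k + 2)) : E (D + 1) :=
  lift (p (rr k i)) (M ^ (i.1 + 1))

/-- the tuple `(g, top)` -/
def up {D k : ℕ} (g : Fin D → Fin (k + 1)) : Fin (D + 1) → Fin (k + 2) :=
  Fin.snoc (α := fun _ => Fin (k + 2)) (fun i => (g i).castSucc) (Fin.last (k + 1))

lemma up_castSucc {D k : ℕ} (g : Fin D → Fin (k + 1)) (i : Fin D) :
    up g i.castSucc = (g i).castSucc := by simp [up]

lemma up_last {D k : ℕ} (g : Fin D → Fin (k + 1)) :
    up g (Fin.last D) = Fin.last (k + 1) := by simp [up]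

/-- expansion of the determinant along the last column -/
lemma det_lift {d k : ℕ} (u : E (d + 1)) (p : Fin (k + 1) → E (d + 1)) (g : Fin (d + 1) → Fin (k + 1)) :
    ∃ m : Fin (d + 1) → ℝ, ∀ M : ℝ,
      (om (lift u 0) (fun i => lp p M (up g i))).det =
        ∑ i : Fin (d + 1), m i * (if i = 0 then 0 else M ^ ((g i).1 + 1) - M ^ ((g 0).1 + 1)) +
          (M ^ (k + 2) - M ^ ((g 0).1 + 1)) * (om u (fun i => p (g i))).det := by
  let N0 : Fin (d + 2) → Fin (d + 1) → ℝ := fun i j =>
    if i = 0 then u j else p (rr k (up g i)) j - p (g 0) j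
  have hup0 : up g 0 = (g 0).castSucc := up_castSucc g 0
  have hlast : (Fin.last (d + 1)) ≠ 0 := by
    intro h
    have := congrArg Fin.val h
    simp at this
  refine ⟨fun i => (-1) ^ ((i.castSucc : Fin (d + 2)).1 + (Fin.last (d + 1)).1) *
    (Matrix.of fun a b => N0 ((i.castSucc : Fin (d + 2)).succAbove a) b).det, fun M => ?_⟩
  rw [Matrix.det_succ_column _ (Fin.last (d + 1)), Fin.sum_univ_castSucc]
  have hminor : ∀ i : Fin (d + 2), (om (lift u 0) (fun i => lp p M (up g i))).submatrix
      i.succAbove (Fin.last (d + 1)).succAbove = Matrix.of fun a b => N0 (i.succAbove a) b := by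
    intro i
    ext a b
    simp only [Matrix.submatrix_apply, om, Matrix.of_apply, N0, Fin.succAbove_last, lp,
      lift_castSucc, hup0, rr_castSucc]
  congr 1
  · apply Finset.sum_congr rfl
    intro i _
    rw [hminor]
    have hent : (om (lift u 0) (fun i => lp p M (up g i))) i.castSucc (Fin.last (d + 1)) =
        if i = 0 then 0 else M ^ ((g i).1 + 1) - M ^ ((g 0).1 + 1) := by
      simp only [om, Matrix.of_apply, lp, lift_last, up_castSucc, hup0, Fin.val_castSucc]
      by_cases hi : i = 0
      · subst hi
        simp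
      · rw [if_neg hi, if_neg]
        intro h
        apply hi
        apply Fin.ext
        have := congrArg Fin.val h
        simpa using this
    rw [hent]
    ring
  · rw [hminor]
    have hent : (om (lift u 0) (fun i => lp p M (up g i))) (Fin.last (d + 1)) (Fin.last (d + 1)) =
        M ^ (k + 2) - M ^ ((g 0).1 + 1) := by
      simp only [om, Matrix.of_apply, lp, lift_last, up_last, hup0, if_neg hlast, Fin.val_castSucc,
        Fin.val_last]
    have hm : (Matrix.of fun a b => N0 ((Fin.last (d + 1)).succAbove a) b) =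
        om u (fun i => p (g i)) := by
      ext a b
      simp only [N0, om, Matrix.of_apply, Fin.succAbove_last, up_castSucc, rr_castSucc]
      by_cases ha : a = 0
      · subst ha
        simp
      · rw [if_neg ha, if_neg]
        intro h
        apply ha
        apply Fin.ext
        have := congrArg Fin.val h
        simpa using this
    rw [hent, hm, Even.neg_one_pow ⟨_, rfl⟩, one_mul]

/-- for large heights the sign of the lifted determinant is the sign of the determinant -/
lemma sign_lift {d k : ℕ} (u : E (d + 1)) (p : Fin (k + 1) → E (d + 1))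
    (g : Fin (d + 1) → Fin (k + 1)) (h : (om u (fun i => p (g i))).det ≠ 0) :
    ∀ᶠ M : ℝ in atTop, orient (lift u 0) (fun i => lp p M (up g i)) =
      orient u (fun i => p (g i)) := by
  obtain ⟨m, hm⟩ := det_lift u p g
  have hpw : ∀ a : ℕ, a < k + 2 → Tendsto (fun M : ℝ => M ^ a / M ^ (k + 2)) atTop (𝓝 0) :=
    fun a ha => tendsto_pow_div_pow_atTop_zero ha
  have hlim : Tendsto (fun M : ℝ => (om (lift u 0) (fun i => lp p M (up g i))).det / M ^ (k + 2))
      atTop (𝓝 (om u (fun i => p (g i))).det) := by
    have h1 : Tendsto (fun M : ℝ => ∑ i : Fin (d + 1), m i * (if i = 0 then 0 else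
        M ^ ((g i).1 + 1) / M ^ (k + 2) - M ^ ((g 0).1 + 1) / M ^ (k + 2)) +
        (1 - M ^ ((g 0).1 + 1) / M ^ (k + 2)) * (om u (fun i => p (g i))).det) atTop
        (𝓝 (∑ i : Fin (d + 1), m i * (0 : ℝ) + (1 - 0) * (om u (fun i => p (g i))).det)) := by
      apply Tendsto.add
      · apply tendsto_finsetSum
        intro i _
        apply Tendsto.const_mul
        by_cases hi : i = 0
        · simp only [if_pos hi]
          exact tendsto_const_nhds
        · simp only [if_neg hi]
          have := (hpw _ (show (g i).1 + 1 < k + 2 by omega)).sub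
            (hpw _ (show (g 0).1 + 1 < k + 2 by omega))
          simpa using this
      · apply Tendsto.mul_const
        exact tendsto_const_nhds.sub (hpw _ (show (g 0).1 + 1 < k + 2 by omega))
    simp only [mul_zero, Finset.sum_const_zero, zero_add, sub_zero, one_mul] at h1
    refine h1.congr' ?_
    filter_upwards [eventually_gt_atTop 0] with M hM
    have hM' : M ^ (k + 2) ≠ 0 := (pow_pos hM _).ne'
    rw [hm, add_div, Finset.sum_div]
    congr 1
    · apply Finset.sum_congr rfl
      intro i _
      split_ifs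
      · simp
      · rw [mul_div_assoc, sub_div]
    · rw [mul_div_right_comm, sub_div, div_self hM']
  rcases lt_or_gt_of_ne h with hneg | hpos
  · filter_upwards [hlim.eventually_lt_const hneg, eventually_gt_atTop 0] with M h1 h2
    have h3 : (om (lift u 0) (fun i => lp p M (up g i))).det < 0 := by
      by_contra hcon
      push Not at hcon
      have := div_nonneg hcon (pow_pos h2 (k + 2)).le
      linarith
    rw [orient_eq, orient_eq, sign_neg h3, sign_neg hneg]
  · filter_upwards [hlim.eventually_const_lt hpos, eventually_gt_atTop 0] with M h1 h2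
    have h3 : 0 < (om (lift u 0) (fun i => lp p M (up g i))).det := by
      by_contra hcon
      push Not at hcon
      have := div_nonpos_of_nonpos_of_nonneg hcon (pow_pos h2 (k + 2)).le
      linarith
    rw [orient_eq, orient_eq, sign_pos h3, sign_pos hpos]

/-- restriction of order types -/
def Rs {D k : ℕ} (o : (Fin (D + 1) → Fin (k + 2)) → SignType) :
    (Fin D → Fin (k + 1)) → SignType := fun g => o (up g)

lemma type_lift {e k : ℕ} {A : Fin (k + 1) → Set (E (e + 2))} (hs : Separated A)
    (u : E (e + 2)) (hu : ‖u‖ = 1) (p : Fin (k + 1) → E (e + 2)) (hp : ∀ i, p i ∈ A i) (c : ℝ)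
    (hc : ∀ i, inner ℝ u (p i) = c) :
    ∀ᶠ M : ℝ in atTop, Rs (orderType (lift u 0) (lp p M)) = orderType u p := by
  have h : ∀ᶠ M : ℝ in atTop, ∀ g : Fin (e + 2) → Fin (k + 1),
      orient (lift u 0) (fun i => lp p M (up g i)) = orient u (fun i => p (g i)) := by
    rw [eventually_all]
    intro g
    by_cases hg : Function.Injective g
    · apply sign_lift
      exact om_det_ne u hu _ c (fun i => hc _) (sep_ind hs g hg _ fun i => hp _)
    · apply Eventually.of_forall
      intro M
      rw [Function.Injective] at hg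
      push Not at hg
      obtain ⟨i, j, hij, hne⟩ := hg
      rw [orient_eq, orient_eq, om_det_zero u _ hne (show p (g i) = p (g j) by rw [hij]),
        om_det_zero (lift u 0) _ (i := i.castSucc) (j := j.castSucc)
          (fun h => hne (Fin.castSucc_injective _ h))
          (show lp p M (up g i.castSucc) = lp p M (up g j.castSucc) by
            rw [up_castSucc, up_castSucc, hij])]
  filter_upwards [h] with M hM
  funext g
  exact hM g

/-- raising the dimension, with the explicit family -/
theorem raise_core {e k : ℕ} (ρ : ℝ) (A : Fin (k + 1) → Set (E (e + 2))) (hc : ∀ i, IsCompact (A i))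
    (y : Fin (k + 1) → E (e + 2)) (hy : ∀ i, A i ⊆ Metric.closedBall (y i) ρ) (hρ : 0 ≤ ρ)
    (hs : Separated A) :
    ∃ M : ℝ, Separated (LF A y ρ M) ∧
        (geomPerms A).encard ≤ (geomPerms (LF A y ρ M)).encard := by
  classical
  -- representations of the geometric permutations
  have hrep : ∀ P : geomPerms A, ∃ (u : E (e + 2)) (c : ℝ) (p : Fin (k + 1) → E (e + 2)),
      ‖u‖ = 1 ∧ (∀ i, p i ∈ A i ∧ inner ℝ u (p i) = c) ∧
      P.1 = {orderType u p, orderType (-u) p} := fun P => P.2
  choose u c p hu hp hP using hrep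
  have h1 : ∀ᶠ M : ℝ in atTop, ∀ P : geomPerms A,
      Rs (orderType (lift (u P) 0) (lp (p P) M)) = orderType (u P) (p P) ∧
      Rs (orderType (lift (-(u P)) 0) (lp (p P) M)) = orderType (-(u P)) (p P) := by
    rw [eventually_all]
    intro P
    refine (type_lift hs (u P) (hu P) (p P) (fun i => (hp P i).1) (c P)
      (fun i => (hp P i).2)).and ?_
    exact type_lift hs (-(u P)) (by rw [norm_neg, hu]) (p P) (fun i => (hp P i).1) (-(c P))
      (fun i => by rw [inner_neg_left, (hp P i).2])
  obtain ⟨M, hM1, hM2⟩ := (h1.and (sep_ev hc hs y hρ)).exists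
  refine ⟨M, hM2, ?_⟩
  -- the injection
  let G : geomPerms A → geomPerms (LF A y ρ M) := fun P =>
    ⟨{orderType (lift (u P) 0) (lp (p P) M), orderType (-(lift (u P) 0)) (lp (p P) M)},
      lift (u P) 0, c P, lp (p P) M, by rw [norm_lift_zero, hu], fun i => ⟨⟨by
        rw [lp, prj_lift]; exact (hp P _).1, by
        rw [lp, lift_sub, sub_self, norm_lift_zero, ← dist_eq_norm]
        exact hy _ (hp P _).1⟩, by
        rw [lp, inner_lift]; exact (hp P _).2⟩, rfl⟩
  have hG : ∀ P, Rs '' (G P).1 = P.1 := by
    intro P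
    show Rs '' {orderType (lift (u P) 0) (lp (p P) M), orderType (-(lift (u P) 0)) (lp (p P) M)} = _
    rw [Set.image_pair, lift_neg, (hM1 P).1, (hM1 P).2, ← hP P]
  have hinj : Function.Injective G := by
    intro P Q h
    apply Subtype.ext
    rw [← hG P, ← hG Q, h]
  exact Set.encard_le_encard_of_injOn (s := geomPerms A) (t := geomPerms (LF A y ρ M))
    (f := fun P => if h : P ∈ geomPerms A then (G ⟨P, h⟩).1 else ∅)
    (fun P hP => by
      simp only [dif_pos hP]
      exact (G ⟨P, hP⟩).2)
    (fun P hP Q hQ h => by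
      simp only [dif_pos hP, dif_pos hQ] at h
      exact congrArg Subtype.val (hinj (Subtype.ext h)))

/-- raising the dimension of any separated family of stubby sets -/
theorem raise {e k : ℕ} (ρ : ℝ) (A : Fin (k + 1) → Set (E (e + 2)))
    (hA : ∀ i, IsCompact (A i) ∧ Convex ℝ (A i) ∧ Stubby ρ (A i)) (hs : Separated A) :
    ∃ A' : Fin (k + 2) → Set (E (e + 3)),
      (∀ i, IsCompact (A' i) ∧ Convex ℝ (A' i) ∧ Stubby ρ (A' i)) ∧ Separated A' ∧
        (geomPerms A).encard ≤ (geomPerms A').encard := by
  have hc := fun i => (hA i).1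
  have hx := fun i => (hA i).2.2.1
  have hy := fun i => (hA i).2.2.2
  choose x hx using hx
  choose y hy using hy
  have hρ : 0 ≤ ρ := by
    have h1 := ball_in_ball ((hx 0).trans (hy 0))
    have h2 := norm_nonneg (x 0 - y 0)
    linarith
  obtain ⟨M, hM1, hM2⟩ := raise_core ρ A hc y hy hρ hs
  exact ⟨LF A y ρ M, fun i => ⟨LF_compact hc y ρ M i, LF_convex (fun i => (hA i).2.1) y ρ M i,
    LF_stubby hx hy M i⟩, hM1, hM2⟩

end Pool.Agent.Y580.GP
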