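import Mathlib
import Pool.Agent.Y580.GP.Perm

/-!
Unit balls: three dimensions, and the induction on the dimension.
The members of the family in three dimensions are the far away unit balls of the starting result
`ManyPerms` and two unit balls at the origin, one above the other, with a very small gap.
-/

set_option autoImplicit false

open Pool.Agent.Results.MP_2c58a9_co.ManyPerms Filter Topology

namespace Pool.Agent.Y580.GP

/-- the centres -/
noncomputable def cc (N : ℕ) (δ R : ℝ) : Fin (N + 3) → E 3 :=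
  Fin.cons (vec 0 (-1 - δ)) (Fin.cons (vec 0 (1 + δ))
    fun m : Fin (N + 1) => vec ((R : ℂ) * uv (2 * m * ang N)) 0)

lemma cc_zero (N : ℕ) (δ R : ℝ) : cc N δ R 0 = vec 0 (-1 - δ) := rfl
lemma cc_one (N : ℕ) (δ R : ℝ) : cc N δ R 1 = vec 0 (1 + δ) := rfl
lemma cc_ss (N : ℕ) (δ R : ℝ) (m : Fin (N + 1)) :
    cc N δ R m.succ.succ = vec ((R : ℂ) * uv (2 * m * ang N)) 0 := rfl

lemma mem_ball {x : E 3} {z : ℂ} {h : ℝ} :
    x ∈ Metric.closedBall (vec z h) 1 ↔ ‖pr x - z‖ ^ 2 + (x 2 - h) ^ 2 ≤ 1 := by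
  rw [Metric.mem_closedBall, dist_eq_norm, ← sq_le_sq₀ (norm_nonneg _) zero_le_one, norm_sub_vec,
    one_pow]

/-- the lower ball -/
lemma low_ball {δ : ℝ} {x : E 3} (hx : x ∈ Metric.closedBall (vec 0 (-1 - δ)) 1) :
    ‖pr x‖ ≤ 1 ∧ x 2 ≤ -δ ∧ ‖pr x‖ ^ 2 ≤ 2 * (-δ - x 2) := by
  rw [mem_ball, sub_zero] at hx
  have h1 : (x 2 - (-1 - δ)) ^ 2 = (1 - (-δ - x 2)) ^ 2 := by ring
  rw [h1] at hx
  have h2 : ‖pr x‖ ^ 2 ≤ 2 * (-δ - x 2) := by nlinarith [sq_nonneg (-δ - x 2)]
  refine ⟨?_, ?_, h2⟩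
  · rw [← sq_le_sq₀ (norm_nonneg _) zero_le_one]
    nlinarith [sq_nonneg (1 - (-δ - x 2))]
  · nlinarith [sq_nonneg ‖pr x‖]

/-- the upper ball -/
lemma upp_ball {δ : ℝ} {x : E 3} (hx : x ∈ Metric.closedBall (vec 0 (1 + δ)) 1) :
    ‖pr x‖ ≤ 1 ∧ δ ≤ x 2 ∧ ‖pr x‖ ^ 2 ≤ 2 * (x 2 - δ) := by
  rw [mem_ball, sub_zero] at hx
  have h1 : (x 2 - (1 + δ)) ^ 2 = (1 - (x 2 - δ)) ^ 2 := by ring
  rw [h1] at hx
  have h2 : ‖pr x‖ ^ 2 ≤ 2 * (x 2 - δ) := by nlinarith [sq_nonneg (x 2 - δ)]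
  refine ⟨?_, ?_, h2⟩
  · rw [← sq_le_sq₀ (norm_nonneg _) zero_le_one]
    nlinarith [sq_nonneg (1 - (x 2 - δ))]
  · nlinarith [sq_nonneg ‖pr x‖]

/-- No line meets the lower ball, the upper ball and a far away ball. -/
lemma no_line_ball {δ κ R : ℝ} {w : ℂ} (hδ : 0 < δ) (hκ : 0 < κ) (hw : ‖w‖ = 1) (hR0 : 0 ≤ R)
    (hR1 : 1 ≤ κ * (R - 2)) (hR2 : κ < 2 * δ * (R - 2)) {F : AffineSubspace ℝ (E 3)}
    (hF : Module.finrank ℝ F.direction = 1) {a b c : E 3} (haF : a ∈ F) (hbF : b ∈ F)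
    (hcF : c ∈ F) (ha : a ∈ Metric.closedBall (vec 0 (-1 - δ)) 1)
    (hb : b ∈ Metric.closedBall (vec 0 (1 + δ)) 1)
    (hc : c ∈ Metric.closedBall (vec ((R : ℂ) * w) 0) 1) : False := by
  obtain ⟨qa, ha2, pa⟩ := low_ball ha
  obtain ⟨qb, hb2, pb⟩ := upp_ball hb
  have qc : ‖pr c - R * w‖ ≤ 1 := SC_pr (R := R) hc
  have hc2 : |c 2| ≤ 1 := SC_height (R := R) (w := w) hc
  have c0 := col_cross hF haF hbF hcF 0 2
  have c1 := col_cross hF haF hbF hcF 1 2
  have key : ((b 2 - a 2 : ℝ) : ℂ) * pr c =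
      (b 2 : ℂ) * pr a - (a 2 : ℂ) * pr b + (c 2 : ℂ) * (pr b - pr a) := by
    apply Complex.ext
    · simp [pr]
      linarith
    · simp [pr]
      linarith
  have hD : 0 < b 2 - a 2 := by linarith
  have n1 : ‖((b 2 - a 2 : ℝ) : ℂ) * pr c‖ ≤ (b 2 - a 2) + (‖pr a‖ + ‖pr b‖) := by
    rw [key]
    have e1 : ‖(b 2 : ℂ) * pr a‖ ≤ b 2 * 1 := by
      rw [norm_mul, Complex.norm_real, Real.norm_of_nonneg (by linarith)]
      exact mul_le_mul_of_nonneg_left qa (by linarith)
    have e2 : ‖(a 2 : ℂ) * pr b‖ ≤ -(a 2) * 1 := by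
      rw [norm_mul, Complex.norm_real, Real.norm_of_nonpos (by linarith)]
      exact mul_le_mul_of_nonneg_left qb (by linarith)
    have e3 : ‖(c 2 : ℂ) * (pr b - pr a)‖ ≤ ‖pr a‖ + ‖pr b‖ := by
      rw [norm_mul, Complex.norm_real, Real.norm_eq_abs]
      calc |c 2| * ‖pr b - pr a‖ ≤ 1 * ‖pr b - pr a‖ :=
            mul_le_mul_of_nonneg_right hc2 (norm_nonneg _)
        _ = ‖pr b - pr a‖ := one_mul _
        _ ≤ ‖pr b‖ + ‖pr a‖ := norm_sub_le _ _
        _ = _ := add_comm _ _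
    calc ‖(b 2 : ℂ) * pr a - (a 2 : ℂ) * pr b + (c 2 : ℂ) * (pr b - pr a)‖
        ≤ ‖(b 2 : ℂ) * pr a - (a 2 : ℂ) * pr b‖ + ‖(c 2 : ℂ) * (pr b - pr a)‖ := norm_add_le _ _
      _ ≤ ‖(b 2 : ℂ) * pr a‖ + ‖(a 2 : ℂ) * pr b‖ + ‖(c 2 : ℂ) * (pr b - pr a)‖ := by
          gcongr
          exact norm_sub_le _ _
      _ ≤ _ := by linarith
  have n2 : R - 1 ≤ ‖pr c‖ := by
    have h1 : ‖(R : ℂ) * w‖ = R := by
      rw [norm_mul, Complex.norm_real, Real.norm_of_nonneg hR0, hw, mul_one]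
    have h2 : ‖(R : ℂ) * w‖ ≤ ‖pr c‖ + ‖pr c - R * w‖ := by
      calc ‖(R : ℂ) * w‖ = ‖pr c - (pr c - R * w)‖ := by congr 1; ring
        _ ≤ _ := norm_sub_le _ _
    linarith
  rw [norm_mul, Complex.norm_real, Real.norm_of_nonneg hD.le] at n1
  have n3 : (b 2 - a 2) * (R - 1) ≤ (b 2 - a 2) + (‖pr a‖ + ‖pr b‖) :=
    (mul_le_mul_of_nonneg_left n2 hD.le).trans n1
  have m1 : 2 * (κ * ‖pr a‖) ≤ κ ^ 2 + 2 * (-δ - a 2) := by
    nlinarith [sq_nonneg (κ - ‖pr a‖)]
  have m2 : 2 * (κ * ‖pr b‖) ≤ κ ^ 2 + 2 * (b 2 - δ) := by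
    nlinarith [sq_nonneg (κ - ‖pr b‖)]
  have n4 : κ * ((b 2 - a 2) * (R - 2)) ≤ κ * (‖pr a‖ + ‖pr b‖) :=
    mul_le_mul_of_nonneg_left (by linarith) hκ.le
  have n5 : (b 2 - a 2) * (κ * (R - 2) - 1) ≤ κ ^ 2 - 2 * δ := by linarith
  have n6 : 2 * δ * (κ * (R - 2) - 1) ≤ (b 2 - a 2) * (κ * (R - 2) - 1) :=
    mul_le_mul_of_nonneg_right (by linarith) (by linarith)
  have n7 : κ * (2 * δ * (R - 2)) ≤ κ * κ := by nlinarith
  have n8 := le_of_mul_le_mul_left n7 hκ
  linarith

/-- three dimensions -/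
theorem three_balls (N : ℕ) :
    ∃ a : Fin (N + 3) → E 3, Separated (fun i => Metric.closedBall (a i) 1) ∧
      (N : ℕ∞) ≤ (geomPerms fun i => Metric.closedBall (a i) 1).encard := by
  classical
  have hcos := cos_ang_pos N
  have hcos1 : Real.cos (ang N) < 1 := by
    have hp := ang_pos N
    have hm := ang_mul N
    have hN : (0 : ℝ) ≤ N := Nat.cast_nonneg _
    rw [← Real.cos_zero]
    apply Real.cos_lt_cos_of_nonneg_of_le_pi le_rfl
    · nlinarith [Real.pi_pos]
    · exact hp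
  have hcc : 0 < 1 - Real.cos (ang N) ^ 2 := by nlinarith
  have ev1 : ∀ᶠ R : ℝ in atTop, ∀ f : Fin 3 → Fin (N + 3), Function.Injective f →
      ¬ ((f 0 = 0 ∨ f 1 = 0 ∨ f 2 = 0) ∧ (f 0 = 1 ∨ f 1 = 1 ∨ f 2 = 1)) →
      8 * (1 : ℝ) * R + 4 * (1 : ℝ) ^ 2 <
        R ^ 2 * |cr (W N (f 1) - W N (f 0)) (W N (f 2) - W N (f 0))| := by
    rw [eventually_all]
    intro f
    by_cases h1 : Function.Injective f
    · by_cases h2 : ((f 0 = 0 ∨ f 1 = 0 ∨ f 2 = 0) ∧ (f 0 = 1 ∨ f 1 = 1 ∨ f 2 = 1))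
      · exact Eventually.of_forall fun R _ h => absurd h2 h
      · have h3 := W_noncol (N := N) (i := f 0) (j := f 1) (k := f 2)
          (fun h => by simpa using h1 h) (fun h => by simpa using h1 h)
          (fun h => by simpa using h1 h) h2
        filter_upwards [eventually_big _ 1 (abs_pos.2 h3)] with R hR _ _
        exact hR
    · exact Eventually.of_forall fun R h => absurd h h1
  have ev2 : ∀ᶠ R : ℝ in atTop, 4 / (1 - Real.cos (ang N) ^ 2) ≤ R := eventually_ge_atTop _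
  have ev3 : ∀ᶠ R : ℝ in atTop, 3 ≤ R := eventually_ge_atTop _
  obtain ⟨R, hR1, hR2, hR3⟩ := (ev1.and (ev2.and ev3)).exists
  have hR0 : 0 < R := by linarith
  rw [div_le_iff₀ hcc] at hR2
  set r : ℝ := 1 / (R * Real.cos (ang N)) with hr_def
  have hr : 0 < r := by positivity
  have hrR : r * (R * Real.cos (ang N)) = 1 := by
    rw [hr_def]
    field_simp
  set q : ℝ := Real.sqrt (1 + r ^ 2) with hq_def
  have hq0 : 0 < q := Real.sqrt_pos.2 (by positivity)
  have hq2 : q ^ 2 = 1 + r ^ 2 := Real.sq_sqrt (by positivity)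
  have hq1 : 1 < q := by
    by_contra hcon
    push Not at hcon
    nlinarith [sq_nonneg r, pow_pos hr 2]
  set δ : ℝ := q - 1 with hδ_def
  have hδ : 0 < δ := by linarith
  -- the horizontal part of the points of contact
  set s : ℝ := r / q with hs_def
  have hs : 0 < s := by positivity
  have hsq : s * q = r := by
    rw [hs_def]
    field_simp
  have D : Data N (Real.sqrt (1 + s ^ 2)) s (s * (1 / (R * Real.cos (ang N)))) R := by
    refine ⟨?_, hs, ?_, hR0, rfl⟩
    · rw [Real.lt_sqrt zero_le_one]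
      nlinarith [pow_pos hs 2]
    · rw [Real.sq_sqrt (by positivity)]
      ring
  -- the gap is large enough
  have hgap : 1 < 2 * δ * (R - 2) ^ 2 := by
    have g1 : δ * (q + 1) = r ^ 2 := by
      rw [hδ_def]
      nlinarith
    have g2 : q ≤ 1 + r ^ 2 / 2 := by
      rw [hq_def]
      apply Real.sqrt_le_iff.2
      constructor
      · positivity
      · nlinarith [sq_nonneg (r ^ 2)]
    have g3 : r ^ 2 ≤ δ * (2 + r ^ 2 / 2) := by
      rw [← g1]
      exact mul_le_mul_of_nonneg_left (by linarith) hδ.le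
    have g4 : r ^ 2 * (R ^ 2 * Real.cos (ang N) ^ 2) = 1 := by
      have : r ^ 2 * (R ^ 2 * Real.cos (ang N) ^ 2) = (r * (R * Real.cos (ang N))) ^ 2 := by ring
      rw [this, hrR, one_pow]
    have g5 : R ^ 2 * Real.cos (ang N) ^ 2 + 4 ≤ (R - 2) ^ 2 := by nlinarith
    -- multiply
    have g6 : 1 + 4 * r ^ 2 ≤ r ^ 2 * (R - 2) ^ 2 := by
      have := mul_le_mul_of_nonneg_left g5 (sq_nonneg r)
      nlinarith
    have g7 : r ^ 2 * (R - 2) ^ 2 ≤ δ * (2 + r ^ 2 / 2) * (R - 2) ^ 2 :=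
      mul_le_mul_of_nonneg_right g3 (sq_nonneg _)
    by_contra hcon
    push Not at hcon
    have g8 : δ * (2 + r ^ 2 / 2) * (R - 2) ^ 2 = (2 * δ * (R - 2) ^ 2) * (1 + r ^ 2 / 4) := by
      ring
    have g9 : (2 * δ * (R - 2) ^ 2) * (1 + r ^ 2 / 4) ≤ 1 * (1 + r ^ 2 / 4) :=
      mul_le_mul_of_nonneg_right hcon (by positivity)
    have g10 := pow_pos hr 2
    linarith
  have hR2pos : 0 < R - 2 := by linarith
  refine ⟨cc N δ R, ?_, ?_⟩
  · intro f hf F hF hall
    have hF1 : Module.finrank ℝ F.direction = 1 := hF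
    choose x hx using hall
    by_cases h01 : ((f 0 = 0 ∨ f 1 = 0 ∨ f 2 = 0) ∧ (f 0 = 1 ∨ f 1 = 1 ∨ f 2 = 1))
    · -- both balls at the origin are among the three members
      obtain ⟨a, b, c, hac, hbc, ha, hb⟩ : ∃ a b c : Fin 3, c ≠ a ∧ c ≠ b ∧ f a = 0 ∧ f b = 1 := by
        obtain ⟨h0, h1⟩ := h01
        rcases h0 with h0 | h0 | h0 <;> rcases h1 with h1 | h1 | h1
        · exact absurd (h0.symm.trans h1) (by simp)
        · exact ⟨0, 1, 2, by decide, by decide, h0, h1⟩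
        · exact ⟨0, 2, 1, by decide, by decide, h0, h1⟩
        · exact ⟨1, 0, 2, by decide, by decide, h0, h1⟩
        · exact absurd (h0.symm.trans h1) (by simp)
        · exact ⟨1, 2, 0, by decide, by decide, h0, h1⟩
        · exact ⟨2, 0, 1, by decide, by decide, h0, h1⟩
        · exact ⟨2, 1, 0, by decide, by decide, h0, h1⟩
        · exact absurd (h0.symm.trans h1) (by simp)
      have hc0 : f c ≠ 0 := fun h => hac (hf (h.trans ha.symm))
      have hc1 : f c ≠ 1 := fun h => hbc (hf (h.trans hb.symm))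
      obtain ⟨m, hm⟩ : ∃ m : Fin (N + 1), f c = m.succ.succ := by
        rcases cases3 (f c) with h | h | h
        · exact absurd h hc0
        · exact absurd h hc1
        · exact h
      have xa : x a ∈ Metric.closedBall (cc N δ R (f a)) 1 := (hx a).1
      have xb : x b ∈ Metric.closedBall (cc N δ R (f b)) 1 := (hx b).1
      have xc : x c ∈ Metric.closedBall (cc N δ R (f c)) 1 := (hx c).1
      rw [ha, cc_zero] at xa
      rw [hb, cc_one] at xb
      rw [hm, cc_ss] at xc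
      refine no_line_ball (κ := 1 / (R - 2)) hδ (by positivity) (norm_uv _) hR0.le ?_ ?_ hF1
        (hx a).2 (hx b).2 (hx c).2 xa xb xc
      · rw [one_div, inv_mul_cancel₀ hR2pos.ne']
      · rw [div_lt_iff₀ hR2pos]
        nlinarith
    · have hbig := hR1 f hf h01
      have hb : ∀ i, ‖pr (x i) - R * W N (f i)‖ ≤ 1 := by
        intro i
        have h : x i ∈ Metric.closedBall (cc N δ R (f i)) 1 := (hx i).1
        rcases cases3 (f i) with h' | h' | ⟨m, h'⟩
        · rw [h', cc_zero] at h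
          rw [h', W_zero, mul_zero, sub_zero]
          exact (low_ball h).1
        · rw [h', cc_one] at h
          rw [h', W_one, mul_zero, sub_zero]
          exact (upp_ball h).1
        · rw [h', cc_ss] at h
          rw [h', W_ss]
          exact SC_pr (R := R) h
      exact far_noncollinear zero_le_one hR0.le (hb 0) (hb 1) (hb 2) (norm_W_le _ _)
        (norm_W_le _ _) (norm_W_le _ _) hbig (col_cr hF1 (hx 0).2 (hx 1).2 (hx 2).2)
  · have hmem : ∀ (l : Fin N) (i : Fin (N + 3)),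
        pts N s R l i ∈ Metric.closedBall (cc N δ R i) 1 := by
      intro l i
      have hrs : s * (1 / (R * Real.cos (ang N))) = s * r := rfl
      have hsr : s * r + 1 / q = q := by
        rw [hs_def]
        field_simp
        nlinarith
      have hss : s ^ 2 + (1 / q) ^ 2 = 1 := by
        rw [hs_def]
        field_simp
        linarith
      rcases cases3 i with rfl | rfl | ⟨m, rfl⟩
      · rw [cc_zero]
        show vec (-(s : ℂ) * uv (psi N l)) (-(s * (1 / (R * Real.cos (ang N))))) ∈ _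
        rw [mem_ball, pr_vec, vec2, sub_zero, norm_mul, norm_neg, Complex.norm_real, norm_uv,
          mul_one, Real.norm_eq_abs, sq_abs, hrs]
        have e1 : -(s * r) - (-1 - δ) = 1 / q := by
          rw [hδ_def]
          linarith
        rw [e1]
        exact hss.le
      · rw [cc_one]
        show vec ((s : ℂ) * uv (psi N l)) (s * (1 / (R * Real.cos (ang N)))) ∈ _
        rw [mem_ball, pr_vec, vec2, sub_zero, norm_mul, Complex.norm_real, norm_uv,
          mul_one, Real.norm_eq_abs, sq_abs, hrs]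
        have e1 : s * r - (1 + δ) = -(1 / q) := by
          rw [hδ_def]
          linarith
        rw [e1, neg_sq]
        exact hss.le
      · have h := pts_mem D l m.succ.succ
        rw [fam_ss] at h
        rw [cc_ss]
        exact h
    have hsub : Set.range (fun l : Fin N =>
        ({orderType (nor N R l) (pts N s R l), orderType (-(nor N R l)) (pts N s R l)} :
          Set ((Fin 3 → Fin (N + 3)) → SignType))) ⊆
          geomPerms fun i => Metric.closedBall (cc N δ R i) 1 := by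
      rintro _ ⟨l, rfl⟩
      exact ⟨nor N R l, 0, pts N s R l, norm_nor N R l,
        fun i => ⟨hmem l i, inner_nor N s R l i⟩, rfl⟩
    refine le_trans ?_ (Set.encard_le_encard hsub)
    refine le_trans ?_ (perms_inj D).encard_range
    simp

/-- raising the dimension of a family of unit balls -/
theorem raise_balls {e k : ℕ} (a : Fin (k + 1) → E (e + 2))
    (hs : Separated fun i => Metric.closedBall (a i) 1) :
    ∃ (a' : Fin (k + 2) → E (e + 3)), Separated (fun i => Metric.closedBall (a' i) 1) ∧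
      (geomPerms fun i => Metric.closedBall (a i) 1).encard ≤
        (geomPerms fun i => Metric.closedBall (a' i) 1).encard := by
  obtain ⟨M, hM1, hM2⟩ := raise_core 1 (fun i => Metric.closedBall (a i) 1)
    (fun i => isCompact_closedBall _ _) a (fun i => Set.Subset.rfl) zero_le_one hs
  have heq : (LF (fun i => Metric.closedBall (a i) 1) a 1 M) =
      fun i => Metric.closedBall (lift (a (rr k i)) (M ^ (i.1 + 1))) 1 := by
    funext i
    ext q
    constructor
    · rintro ⟨_, h⟩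
      rwa [Metric.mem_closedBall, dist_eq_norm]
    · intro h
      rw [Metric.mem_closedBall, dist_eq_norm] at h
      refine ⟨?_, h⟩
      have h1 := norm_prj_le (q - lift (a (rr k i)) (M ^ (i.1 + 1)))
      rw [map_sub, prj_lift] at h1
      rw [Metric.mem_closedBall, dist_eq_norm]
      exact h1.trans h
  rw [heq] at hM1 hM2
  exact ⟨fun i => lift (a (rr k i)) (M ^ (i.1 + 1)), hM1, hM2⟩

/-- all dimensions -/
theorem all_balls (e : ℕ) (N : ℕ) :
    ∃ (a : Fin (N + (e + 3)) → E (e + 3)),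
      Separated (fun i => Metric.closedBall (a i) 1) ∧
      (N : ℕ∞) ≤ (geomPerms fun i => Metric.closedBall (a i) 1).encard := by
  induction e with
  | zero => exact three_balls N
  | succ e ih =>
    obtain ⟨a, h1, h2⟩ := ih
    obtain ⟨a', h1', h2'⟩ := raise_balls (e := e + 1) (k := N + (e + 2)) a h1
    exact ⟨a', h1', h2.trans h2'⟩

end Pool.Agent.Y580.GP
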