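import Mathlib
import Pool.Agent.Y580.GP.Balls

/-!
Families of unit balls in which every proper subfamily has a transversal plane.
-/

set_option autoImplicit false

open Pool.Agent.Results.MP_2c58a9_co.ManyPerms Filter Topology

namespace Pool.Agent.Y580.GP

/-- directions -/
noncomputable def dr (n : ℕ) (m : Fin n) : ℂ := uv (m * (Real.pi / n))

lemma norm_dr (n : ℕ) (m : Fin n) : ‖dr n m‖ = 1 := norm_uv _

lemma cr_dr {n : ℕ} {m l : Fin n} (h : m ≠ l) : cr (dr n m) (dr n l) ≠ 0 := by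
  rw [dr, dr, cr_uv]
  have hn : (0 : ℝ) < n := by
    have := m.pos
    exact_mod_cast this
  have hp : 0 < Real.pi / n := div_pos Real.pi_pos hn
  have hpn : (n : ℝ) * (Real.pi / n) = Real.pi := by field_simp
  have hm0 : (0 : ℝ) ≤ ((m : ℕ) : ℝ) := Nat.cast_nonneg _
  have hl0 : (0 : ℝ) ≤ ((l : ℕ) : ℝ) := Nat.cast_nonneg _
  have hm1 : ((m : ℕ) : ℝ) + 1 ≤ n := by exact_mod_cast m.2
  have hl1 : ((l : ℕ) : ℝ) + 1 ≤ n := by exact_mod_cast l.2
  have hml : (m : ℕ) ≠ l := fun h' => h (Fin.ext h')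
  rcases lt_or_gt_of_ne hml with hlt | hlt
  · have h1 : ((m : ℕ) : ℝ) + 1 ≤ l := by exact_mod_cast hlt
    apply ne_of_gt
    apply Real.sin_pos_of_pos_of_lt_pi
    · nlinarith
    · nlinarith
  · have h1 : ((l : ℕ) : ℝ) + 1 ≤ m := by exact_mod_cast hlt
    apply ne_of_lt
    apply Real.sin_neg_of_neg_of_neg_pi_lt
    · nlinarith
    · nlinarith

/-- real inner product in the plane -/
def ip (z w : ℂ) : ℝ := z.re * w.re + z.im * w.im

lemma ip_uv (t t' : ℝ) : ip (uv t) (uv t') = Real.cos (t - t') := by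
  rw [Real.cos_sub]
  simp only [ip, uv]

/-- every direction is close to one of the directions, up to sign -/
lemma close_dir {n : ℕ} (hn : 0 < n) (ψ : ℝ) :
    ∃ m : Fin n, Real.cos (Real.pi / (2 * n)) ≤ |Real.cos (ψ - m * (Real.pi / n))| := by
  have hn' : (0 : ℝ) < n := by exact_mod_cast hn
  set k : ℤ := round (ψ / (Real.pi / n)) with hk
  have hp : 0 < Real.pi / n := div_pos Real.pi_pos hn'
  have h1 := abs_sub_round (ψ / (Real.pi / n))
  rw [← hk] at h1
  have h2 : |ψ - k * (Real.pi / n)| ≤ Real.pi / (2 * n) := by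
    have e : ψ - k * (Real.pi / n) = (ψ / (Real.pi / n) - k) * (Real.pi / n) := by
      field_simp
    rw [e, abs_mul, abs_of_pos hp]
    calc |ψ / (Real.pi / n) - k| * (Real.pi / n) ≤ 1 / 2 * (Real.pi / n) :=
          mul_le_mul_of_nonneg_right h1 hp.le
      _ = Real.pi / (2 * n) := by ring
  have hmod0 : 0 ≤ k % n := Int.emod_nonneg _ (by exact_mod_cast hn.ne')
  have hmod1 : k % n < n := Int.emod_lt_of_pos _ (by exact_mod_cast hn)
  refine ⟨⟨(k % n).toNat, by omega⟩, ?_⟩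
  have hcast : (((k % n).toNat : ℕ) : ℝ) = ((k % n : ℤ) : ℝ) := by
    have : (((k % n).toNat : ℕ) : ℤ) = k % n := Int.toNat_of_nonneg hmod0
    exact_mod_cast congrArg (fun z : ℤ => (z : ℝ)) this
  show Real.cos (Real.pi / (2 * n)) ≤ |Real.cos (ψ - (((k % n).toNat : ℕ) : ℝ) * (Real.pi / n))|
  rw [hcast]
  have hdiv : (k : ℝ) = ((k % n : ℤ) : ℝ) + n * ((k / n : ℤ) : ℝ) := by
    have := Int.emod_add_mul_ediv k n
    exact_mod_cast congrArg (fun z : ℤ => (z : ℝ)) this.symm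
  have e : ψ - ((k % n : ℤ) : ℝ) * (Real.pi / n) =
      (ψ - k * (Real.pi / n)) + ((k / n : ℤ) : ℝ) * Real.pi := by
    rw [hdiv]
    field_simp
    ring
  rw [e, Real.cos_add_int_mul_pi]
  have h3 : |(-1 : ℝ) ^ (k / (n : ℤ)) * Real.cos (ψ - k * (Real.pi / n))| =
      |Real.cos (ψ - k * (Real.pi / n))| := by
    rw [abs_mul, abs_zpow, abs_neg, abs_one, one_zpow, one_mul]
  rw [h3]
  have h4 : Real.cos (Real.pi / (2 * n)) ≤ Real.cos |ψ - k * (Real.pi / n)| := by
    apply Real.cos_le_cos_of_nonneg_of_le_pi (abs_nonneg _) _ h2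
    have : Real.pi / (2 * n) ≤ Real.pi / 1 := by
      apply div_le_div_of_nonneg_left Real.pi_pos.le zero_lt_one
      have : (1 : ℝ) ≤ n := by exact_mod_cast hn
      linarith
    simpa using this
  rw [Real.cos_abs] at h4
  exact h4.trans (le_abs_self _)

/-- two different directions are not close -/
lemma far_dir {n : ℕ} (hn : 2 ≤ n) {m l : Fin n} (h : m ≠ l) :
    |Real.cos (m * (Real.pi / n) - l * (Real.pi / n))| ≤ Real.cos (Real.pi / n) := by
  have hn' : (2 : ℝ) ≤ n := by exact_mod_cast hn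
  have hn0 : (0 : ℝ) < n := by linarith
  have hp : 0 < Real.pi / n := div_pos Real.pi_pos hn0
  have hpn : (n : ℝ) * (Real.pi / n) = Real.pi := by field_simp
  have hm0 : (0 : ℝ) ≤ ((m : ℕ) : ℝ) := Nat.cast_nonneg _
  have hl0 : (0 : ℝ) ≤ ((l : ℕ) : ℝ) := Nat.cast_nonneg _
  have hm1 : ((m : ℕ) : ℝ) + 1 ≤ n := by exact_mod_cast m.2
  have hl1 : ((l : ℕ) : ℝ) + 1 ≤ n := by exact_mod_cast l.2
  have key : ∀ x : ℝ, Real.pi / n ≤ x → x ≤ Real.pi - Real.pi / n →
      |Real.cos x| ≤ Real.cos (Real.pi / n) := by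
    intro x h1 h2
    rw [abs_le]
    constructor
    · rw [← Real.cos_pi_sub]
      apply Real.cos_le_cos_of_nonneg_of_le_pi
      · linarith
      · linarith
      · exact h2
    · apply Real.cos_le_cos_of_nonneg_of_le_pi hp.le
      · linarith
      · exact h1
  have hml : (m : ℕ) ≠ l := fun h' => h (Fin.ext h')
  rcases lt_or_gt_of_ne hml with hlt | hlt
  · have h1 : ((m : ℕ) : ℝ) + 1 ≤ l := by exact_mod_cast hlt
    have e : ((m : ℕ) : ℝ) * (Real.pi / n) - l * (Real.pi / n) =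
        -(((l : ℕ) : ℝ) * (Real.pi / n) - m * (Real.pi / n)) := by ring
    rw [e, Real.cos_neg]
    apply key
    · nlinarith
    · nlinarith
  · have h1 : ((l : ℕ) : ℝ) + 1 ≤ m := by exact_mod_cast hlt
    apply key
    · nlinarith
    · nlinarith

end Pool.Agent.Y580.GP
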