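import Mathlib
import Pool.Agent.Y580.GP.Helly

/-!
Families of unit balls in which every proper subfamily has a transversal plane: three dimensions.
-/

set_option autoImplicit false

open Pool.Agent.Results.MP_2c58a9_co.ManyPerms Filter Topology

namespace Pool.Agent.Y580.GP

/-- no hyperplane is within distance `1` of all points -/
def NoTr {k D : ℕ} (a : Fin k → E D) : Prop :=
  ∀ u : E D, ‖u‖ = 1 → ∀ c : ℝ, ∃ i, 1 < |inner ℝ u (a i) - c|

/-- some hyperplane is within distance `1` of the points with indices in `S` -/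
def HasTr {k D : ℕ} (a : Fin k → E D) (S : Finset (Fin k)) : Prop :=
  ∃ (u : E D) (c : ℝ), ‖u‖ = 1 ∧ ∀ i ∈ S, |inner ℝ u (a i) - c| ≤ 1

lemma casesN {n : ℕ} (i : Fin (n + 2)) : i = 0 ∨ i = 1 ∨ ∃ m : Fin n, i = m.succ.succ := by
  refine Fin.cases (Or.inl rfl) (fun j => ?_) i
  refine Fin.cases (Or.inr (Or.inl rfl)) (fun m => ?_) j
  exact Or.inr (Or.inr ⟨m, rfl⟩)

/-- horizontal directions -/
noncomputable def WD (n : ℕ) : Fin (n + 2) → ℂ :=
  Fin.cons 0 (Fin.cons 0 fun m : Fin n => dr n m)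

/-- the centres -/
noncomputable def hc (n : ℕ) (δ R : ℝ) : Fin (n + 2) → E 3 :=
  Fin.cons (vec 0 (-1 - δ)) (Fin.cons (vec 0 (1 + δ)) fun m : Fin n => vec ((R : ℂ) * dr n m) 0)

lemma WD_zero (n : ℕ) : WD n 0 = 0 := rfl
lemma WD_one (n : ℕ) : WD n 1 = 0 := rfl
lemma WD_ss (n : ℕ) (m : Fin n) : WD n m.succ.succ = dr n m := rfl
lemma hc_zero (n : ℕ) (δ R : ℝ) : hc n δ R 0 = vec 0 (-1 - δ) := rfl
lemma hc_one (n : ℕ) (δ R : ℝ) : hc n δ R 1 = vec 0 (1 + δ) := rfl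
lemma hc_ss (n : ℕ) (δ R : ℝ) (m : Fin n) : hc n δ R m.succ.succ = vec ((R : ℂ) * dr n m) 0 := rfl

lemma norm_WD_le (n : ℕ) (i : Fin (n + 2)) : ‖WD n i‖ ≤ 1 := by
  rcases casesN i with rfl | rfl | ⟨m, rfl⟩
  · rw [WD_zero]; simp
  · rw [WD_one]; simp
  · rw [WD_ss, norm_dr]

lemma dr_ne {n : ℕ} {m l : Fin n} (h : m ≠ l) : dr n m ≠ dr n l := by
  intro h'
  apply cr_dr h
  rw [h']
  simp [cr]
  ring

/-- Horizontal directions of three members, not both balls at the origin among them. -/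
lemma WD_noncol {n : ℕ} {i j k : Fin (n + 2)} (hij : i ≠ j) (hik : i ≠ k) (hjk : j ≠ k)
    (h01 : ¬ ((i = 0 ∨ j = 0 ∨ k = 0) ∧ (i = 1 ∨ j = 1 ∨ k = 1))) :
    cr (WD n j - WD n i) (WD n k - WD n i) ≠ 0 := by
  have inj : ∀ {m l : Fin n}, m.succ.succ ≠ l.succ.succ → m ≠ l := by
    intro m l h h'
    exact h (by rw [h'])
  rcases casesN i with rfl | rfl | ⟨a, rfl⟩ <;> rcases casesN j with rfl | rfl | ⟨b, rfl⟩ <;>
    rcases casesN k with rfl | rfl | ⟨c, rfl⟩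
  all_goals first
    | exact absurd rfl hij
    | exact absurd rfl hik
    | exact absurd rfl hjk
    | (exfalso; apply h01; refine ⟨?_, ?_⟩ <;> tauto)
    | skip
  · rw [WD_zero, WD_ss, WD_ss, sub_zero, sub_zero]
    exact cr_dr (inj hjk)
  · rw [WD_one, WD_ss, WD_ss, sub_zero, sub_zero]
    exact cr_dr (inj hjk)
  · rw [WD_zero, WD_ss, WD_ss]
    have : cr (0 - dr n a) (dr n c - dr n a) = -cr (dr n a) (dr n c) := by simp [cr]; ring
    rw [this]
    exact neg_ne_zero.2 (cr_dr (inj hik))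
  · rw [WD_one, WD_ss, WD_ss]
    have : cr (0 - dr n a) (dr n c - dr n a) = -cr (dr n a) (dr n c) := by simp [cr]; ring
    rw [this]
    exact neg_ne_zero.2 (cr_dr (inj hik))
  · rw [WD_zero, WD_ss, WD_ss]
    have : cr (dr n b - dr n a) (0 - dr n a) = cr (dr n a) (dr n b) := by simp [cr]; ring
    rw [this]
    exact cr_dr (inj hij)
  · rw [WD_one, WD_ss, WD_ss]
    have : cr (dr n b - dr n a) (0 - dr n a) = cr (dr n a) (dr n b) := by simp [cr]; ring
    rw [this]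
    exact cr_dr (inj hij)
  · rw [WD_ss, WD_ss, WD_ss]
    exact cr_unit (norm_dr _ _) (norm_dr _ _) (norm_dr _ _) (dr_ne (inj hij)) (dr_ne (inj hik))
      (dr_ne (inj hjk))

/-- a vector of the plane in polar coordinates -/
lemma polar (z : ℂ) : ∃ t : ℝ, z.re = ‖z‖ * Real.cos t ∧ z.im = ‖z‖ * Real.sin t :=
  ⟨Complex.arg z, (Complex.norm_mul_cos_arg z).symm, (Complex.norm_mul_sin_arg z).symm⟩

/-- the parameters of the construction -/
structure Par (C R r q δ : ℝ) : Prop where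
  hR : 3 ≤ R
  hr : 0 < r
  hrT : r ^ 2 * (R ^ 2 * C ^ 2 - 1) = 1
  hq0 : 0 < q
  hq2 : q ^ 2 = 1 + r ^ 2
  hq : 1 + δ = q
  hδ : 0 < δ
  hδ1 : δ ≤ 1
  hRrC : R * r * C = q
  hgap : 1 < 2 * δ * (R - 2) ^ 2
  hT8 : 8 ≤ R ^ 2 * C ^ 2 - 1

lemma gap_arith {C R r q δ T : ℝ} (hr : 0 < r) (hT : T = R ^ 2 * C ^ 2 - 1)
    (hrT : r ^ 2 * T = 1) (hq2 : q ^ 2 = 1 + r ^ 2) (hq1 : 1 < q) (hδ : δ = q - 1)
    (hR2 : 4 ≤ R * (1 - C ^ 2)) (hR0 : 0 < R) : 1 < 2 * δ * (R - 2) ^ 2 := by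
  have hδ0 : 0 < δ := by linarith
  have hr2pos := pow_pos hr 2
  have g1 : δ * (q + 1) = r ^ 2 := by
    rw [hδ]
    linear_combination hq2
  have g2 : q ≤ 1 + r ^ 2 / 2 := by
    have h1 : q ^ 2 ≤ (1 + r ^ 2 / 2) ^ 2 := by
      rw [hq2]
      have : (1 + r ^ 2 / 2) ^ 2 = 1 + r ^ 2 + (r ^ 2) ^ 2 / 4 := by ring
      rw [this]
      have := sq_nonneg (r ^ 2)
      linarith
    exact le_of_sq_le_sq h1 (by positivity)
  have g3 : r ^ 2 ≤ δ * (2 + r ^ 2 / 2) := by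
    rw [← g1]
    exact mul_le_mul_of_nonneg_left (by linarith) hδ0.le
  have g5 : T + 5 ≤ (R - 2) ^ 2 := by
    have h1 : 4 * R ≤ R * (1 - C ^ 2) * R := mul_le_mul_of_nonneg_right hR2 hR0.le
    rw [hT]
    linarith
  have g6 : 1 + 5 * r ^ 2 ≤ r ^ 2 * (R - 2) ^ 2 := by
    have h1 := mul_le_mul_of_nonneg_left g5 hr2pos.le
    linarith
  have g7 : r ^ 2 * (R - 2) ^ 2 ≤ δ * (2 + r ^ 2 / 2) * (R - 2) ^ 2 :=
    mul_le_mul_of_nonneg_right g3 (sq_nonneg _)
  by_contra hcon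
  push Not at hcon
  have g8 : δ * (2 + r ^ 2 / 2) * (R - 2) ^ 2 = (2 * δ * (R - 2) ^ 2) * (1 + r ^ 2 / 4) := by
    ring
  have g9 : (2 * δ * (R - 2) ^ 2) * (1 + r ^ 2 / 4) ≤ 1 * (1 + r ^ 2 / 4) :=
    mul_le_mul_of_nonneg_right hcon (by positivity)
  linarith

lemma par_exists {C R : ℝ} (hC0 : 0 < C) (hR3 : 3 ≤ R) (hR2 : 4 ≤ R * (1 - C ^ 2))
    (hRC : 3 ≤ R * C) : ∃ r q δ, Par C R r q δ := by
  have hR0 : 0 < R := by linarith
  have hRC2 : 9 ≤ R ^ 2 * C ^ 2 := by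
    have : R ^ 2 * C ^ 2 = (R * C) ^ 2 := by ring
    rw [this]
    nlinarith
  obtain ⟨T, hT⟩ : ∃ T, T = R ^ 2 * C ^ 2 - 1 := ⟨_, rfl⟩
  have hT8 : 8 ≤ T := by rw [hT]; linarith
  have hT0 : 0 < T := by linarith
  obtain ⟨r, hr, hr2⟩ : ∃ r : ℝ, 0 < r ∧ r ^ 2 = 1 / T :=
    ⟨Real.sqrt (1 / T), Real.sqrt_pos.2 (by positivity), Real.sq_sqrt (by positivity)⟩
  have hrT : r ^ 2 * T = 1 := by rw [hr2]; field_simp
  obtain ⟨q, hq0, hq2⟩ : ∃ q : ℝ, 0 < q ∧ q ^ 2 = 1 + r ^ 2 :=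
    ⟨Real.sqrt (1 + r ^ 2), Real.sqrt_pos.2 (by positivity), Real.sq_sqrt (by positivity)⟩
  have hr2pos := pow_pos hr 2
  have hq1 : 1 < q := by
    by_contra hcon
    push Not at hcon
    have h1 := pow_le_pow_left₀ hq0.le hcon 2
    rw [hq2] at h1
    linarith
  have hr21 : r ^ 2 ≤ 1 := by
    rw [hr2, div_le_one hT0]
    linarith
  have hRrC : R * r * C = q := by
    have h1 : (R * r * C) ^ 2 = q ^ 2 := by
      rw [hq2]
      have : (R * r * C) ^ 2 = r ^ 2 * T + r ^ 2 := by rw [hT]; ring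
      rw [this, hrT]
    exact (pow_left_inj₀ (by positivity) hq0.le two_ne_zero).1 h1
  refine ⟨r, q, q - 1, hR3, hr, by rw [← hT]; exact hrT, hq0, hq2, by ring, by linarith, ?_, hRrC,
    gap_arith hr hT hrT hq2 hq1 rfl hR2 hR0, by rw [← hT]; exact hT8⟩
  by_contra hcon
  push Not at hcon
  have h2 : 2 < q := by linarith
  have h3 := pow_lt_pow_left₀ h2 (by norm_num) two_ne_zero
  rw [hq2] at h3
  linarith

lemma final_arith {C H T w q p2 u2 : ℝ} (hC0 : 0 < C) (hCH : C < H) (hT8 : 8 ≤ T)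
    (hw0 : 0 ≤ w) (hw1 : w ≤ 1) (hqT : q ^ 2 * T = T + 1)
    (h6 : (T + 1) * p2 * H ^ 2 ≤ (1 + w) ^ 2 * C ^ 2) (h8 : q ^ 2 * u2 ≤ (1 - w) ^ 2)
    (h12 : p2 + u2 = 1) : False := by
  have hT0 : 0 < T := by linarith
  have h11 : (T + 1) * u2 ≤ (1 - w) ^ 2 * T := by
    have h1 := mul_le_mul_of_nonneg_right h8 hT0.le
    have h2 : q ^ 2 * u2 * T = (T + 1) * u2 := by rw [← hqT]; ring
    rwa [h2] at h1
  have hp : p2 = 1 - u2 := by linarith
  rw [hp] at h6
  have h15 : H ^ 2 * ((T + 1) * u2) ≤ H ^ 2 * ((1 - w) ^ 2 * T) :=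
    mul_le_mul_of_nonneg_left h11 (sq_nonneg H)
  have h14 : H ^ 2 * ((T + 1) - (1 - w) ^ 2 * T) ≤ (1 + w) ^ 2 * C ^ 2 := by
    have e1 : H ^ 2 * ((T + 1) - (1 - w) ^ 2 * T) =
        (T + 1) * (1 - u2) * H ^ 2 + (H ^ 2 * ((T + 1) * u2) - H ^ 2 * ((1 - w) ^ 2 * T)) := by
      ring
    rw [e1]
    linarith
  have hCH2 : C ^ 2 < H ^ 2 := pow_lt_pow_left₀ hCH hC0.le two_ne_zero
  have h16 : (1 + w) ^ 2 ≤ (T + 1) - (1 - w) ^ 2 * T := by
    have e2 : (T + 1) - (1 - w) ^ 2 * T - (1 + w) ^ 2 = w * ((2 - w) * T - 2 - w) := by ring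
    have h17 : 0 ≤ (2 - w) * T - 2 - w := by
      have h18 : 1 * 8 ≤ (2 - w) * T := mul_le_mul (by linarith) hT8 (by norm_num) (by linarith)
      linarith
    have h19 := mul_nonneg hw0 h17
    linarith
  have h18 : 0 < (1 + w) ^ 2 := by positivity
  have h19 : (1 + w) ^ 2 * C ^ 2 < (1 + w) ^ 2 * H ^ 2 := mul_lt_mul_of_pos_left hCH2 h18
  have h20 : H ^ 2 * (1 + w) ^ 2 ≤ H ^ 2 * ((T + 1) - (1 - w) ^ 2 * T) :=
    mul_le_mul_of_nonneg_left h16 (sq_nonneg H)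
  linarith

lemma sum_arith {q x c : ℝ} (h0 : |-(q * x) - c| ≤ 1) (h1 : |q * x - c| ≤ 1) (hq : 0 < q) :
    q * |x| + |c| ≤ 1 := by
  have e : q * |x| = |q * x| := by rw [abs_mul, abs_of_pos hq]
  rw [e]
  rw [abs_le] at h0 h1
  rcases abs_cases (q * x) with ⟨h2, _⟩ | ⟨h2, _⟩ <;> rcases abs_cases c with ⟨h3, _⟩ | ⟨h3, _⟩ <;>
    rw [h2, h3] <;> linarith [h0.1, h0.2, h1.1, h1.2]

lemma norm_one_of_sq {D : ℕ} {x : E D} (h : ‖x‖ ^ 2 = 1) : ‖x‖ = 1 := by
  have h1 : ‖x‖ ^ 2 = 1 ^ 2 := by rw [h, one_pow]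
  exact (pow_left_inj₀ (norm_nonneg _) zero_le_one two_ne_zero).1 h1

/-- the far away balls and the balls at the origin are separated -/
lemma helly_sep {n : ℕ} {R δ : ℝ} (hR3 : 3 ≤ R) (hδ : 0 < δ) (hgap : 1 < 2 * δ * (R - 2) ^ 2)
    (hR1 : ∀ f : Fin 3 → Fin (n + 2), Function.Injective f →
      ¬ ((f 0 = 0 ∨ f 1 = 0 ∨ f 2 = 0) ∧ (f 0 = 1 ∨ f 1 = 1 ∨ f 2 = 1)) →
      8 * (1 : ℝ) * R + 4 * (1 : ℝ) ^ 2 <
        R ^ 2 * |cr (WD n (f 1) - WD n (f 0)) (WD n (f 2) - WD n (f 0))|) :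
    Separated (fun i => Metric.closedBall (hc n δ R i) 1) := by
  have hR0 : 0 < R := by linarith
  have hR2pos : 0 < R - 2 := by linarith
  intro f hf F hF hall
  have hF1 : Module.finrank ℝ F.direction = 1 := hF
  choose x hx using hall
  by_cases h01 : ((f 0 = 0 ∨ f 1 = 0 ∨ f 2 = 0) ∧ (f 0 = 1 ∨ f 1 = 1 ∨ f 2 = 1))
  · -- both balls at the origin are among the three members
    obtain ⟨a, b, c, hac, hbc, ha, hb⟩ : ∃ a b c : Fin 3, c ≠ a ∧ c ≠ b ∧ f a = 0 ∧ f b = 1 := by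
      obtain ⟨h0, h1⟩ := h01
      rcases h0 with h0 | h0 | h0 <;> rcases h1 with h1 | h1 | h1
      · exact absurd (h0.symm.trans h1) (by simp)
      · exact ⟨0, 1, 2, by decide, by decide, h0, h1⟩
      · exact ⟨0, 2, 1, by decide, by decide, h0, h1⟩
      · exact ⟨1, 0, 2, by decide, by decide, h0, h1⟩
      · exact absurd (h0.symm.trans h1) (by simp)
      · exact ⟨1, 2, 0, by decide, by decide, h0, h1⟩
      · exact ⟨2, 0, 1, by decide, by decide, h0, h1⟩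
      · exact ⟨2, 1, 0, by decide, by decide, h0, h1⟩
      · exact absurd (h0.symm.trans h1) (by simp)
    have hc0 : f c ≠ 0 := fun h => hac (hf (h.trans ha.symm))
    have hc1 : f c ≠ 1 := fun h => hbc (hf (h.trans hb.symm))
    obtain ⟨m, hm⟩ : ∃ m : Fin n, f c = m.succ.succ := by
      rcases casesN (f c) with h | h | h
      · exact absurd h hc0
      · exact absurd h hc1
      · exact h
    have xa : x a ∈ Metric.closedBall (hc n δ R (f a)) 1 := (hx a).1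
    have xb : x b ∈ Metric.closedBall (hc n δ R (f b)) 1 := (hx b).1
    have xc : x c ∈ Metric.closedBall (hc n δ R (f c)) 1 := (hx c).1
    rw [ha, hc_zero] at xa
    rw [hb, hc_one] at xb
    rw [hm, hc_ss] at xc
    refine no_line_ball (κ := 1 / (R - 2)) hδ (by positivity) (norm_dr _ _) hR0.le ?_ ?_ hF1
      (hx a).2 (hx b).2 (hx c).2 xa xb xc
    · rw [one_div, inv_mul_cancel₀ hR2pos.ne']
    · rw [div_lt_iff₀ hR2pos]
      have : 2 * δ * (R - 2) * (R - 2) = 2 * δ * (R - 2) ^ 2 := by ring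
      rw [this]
      exact hgap
  · have hbig := hR1 f hf h01
    have hb : ∀ i, ‖pr (x i) - R * WD n (f i)‖ ≤ 1 := by
      intro i
      have h : x i ∈ Metric.closedBall (hc n δ R (f i)) 1 := (hx i).1
      rcases casesN (f i) with h' | h' | ⟨m, h'⟩
      · rw [h', hc_zero] at h
        rw [h', WD_zero, mul_zero, sub_zero]
        exact (low_ball h).1
      · rw [h', hc_one] at h
        rw [h', WD_one, mul_zero, sub_zero]
        exact (upp_ball h).1
      · rw [h', hc_ss] at h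
        rw [h', WD_ss]
        exact SC_pr (R := R) h
    exact far_noncollinear zero_le_one hR0.le (hb 0) (hb 1) (hb 2) (norm_WD_le _ _)
      (norm_WD_le _ _) (norm_WD_le _ _) hbig (col_cr hF1 (hx 0).2 (hx 1).2 (hx 2).2)

lemma inner_vec' (u : E 3) (z : ℂ) (h : ℝ) : inner ℝ u (vec z h) = ip (pr u) z + u 2 * h := by
  have : u = vec (pr u) (u 2) := by
    ext i
    fin_cases i
    · show u 0 = vec (pr u) (u 2) 0
      rw [vec0]
      rfl
    · show u 1 = vec (pr u) (u 2) 1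
      rw [vec1]
      rfl
    · show u 2 = vec (pr u) (u 2) 2
      rw [vec2]
  conv_lhs => rw [this]
  rw [inner_vec]
  rfl

lemma helly_no {n : ℕ} (hn : 0 < n) {C H R r q δ : ℝ} (P : Par C R r q δ) (hC0 : 0 < C)
    (hCH : C < H) (hH : H = Real.cos (Real.pi / (2 * n))) : NoTr (hc n δ R) := by
  intro u hu c
  by_contra hcon
  push Not at hcon
  have hR0 : 0 < R := by linarith [P.hR]
  have hq0 := P.hq0
  have hu2 : ‖pr u‖ ^ 2 + u 2 ^ 2 = 1 := by rw [← norm_sq, hu, one_pow]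
  have h0 := hcon 0
  have h1 := hcon 1
  rw [hc_zero, inner_vec'] at h0
  rw [hc_one, inner_vec'] at h1
  have hip0 : ip (pr u) 0 = 0 := by simp [ip]
  rw [hip0, zero_add] at h0 h1
  have e0 : u 2 * (-1 - δ) - c = -(q * u 2) - c := by rw [← P.hq]; ring
  have e1 : u 2 * (1 + δ) - c = q * u 2 - c := by rw [← P.hq]; ring
  rw [e0] at h0
  rw [e1] at h1
  have hsum := sum_arith h0 h1 hq0
  obtain ⟨t, ht1, ht2⟩ := polar (pr u)
  obtain ⟨m, hm⟩ := close_dir hn t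
  rw [← hH] at hm
  have h2 := hcon m.succ.succ
  rw [hc_ss, inner_vec', mul_zero, add_zero] at h2
  have hip : ip (pr u) ((R : ℂ) * dr n m) =
      R * ‖pr u‖ * Real.cos (t - m * (Real.pi / n)) := by
    have h3 : ip (uv t) (dr n m) = Real.cos (t - m * (Real.pi / n)) := ip_uv _ _
    rw [← h3]
    simp only [ip, Complex.mul_re, Complex.mul_im, Complex.ofReal_re, Complex.ofReal_im, uv]
    rw [ht1, ht2]
    ring
  rw [hip] at h2
  have hw0 : 0 ≤ |c| := abs_nonneg _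
  have hqx : 0 ≤ q * |u 2| := by positivity
  have hw1 : |c| ≤ 1 := by linarith
  have h4 : R * ‖pr u‖ * H ≤ 1 + |c| := by
    have h5 : |R * ‖pr u‖ * Real.cos (t - m * (Real.pi / n))| ≤ 1 + |c| := by
      have := abs_sub_abs_le_abs_sub (R * ‖pr u‖ * Real.cos (t - m * (Real.pi / n))) c
      linarith
    rw [abs_mul, abs_of_nonneg (by positivity : 0 ≤ R * ‖pr u‖)] at h5
    exact (mul_le_mul_of_nonneg_left hm (by positivity)).trans h5
  have hH0 : 0 < H := hC0.trans hCH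
  have h6 : R ^ 2 * ‖pr u‖ ^ 2 * H ^ 2 ≤ (1 + |c|) ^ 2 := by
    have h7 := pow_le_pow_left₀ (by positivity) h4 2
    calc R ^ 2 * ‖pr u‖ ^ 2 * H ^ 2 = (R * ‖pr u‖ * H) ^ 2 := by ring
      _ ≤ _ := h7
  have h8 : q ^ 2 * u 2 ^ 2 ≤ (1 - |c|) ^ 2 := by
    have h9 : q * |u 2| ≤ 1 - |c| := by linarith
    have h10 := pow_le_pow_left₀ hqx h9 2
    rw [mul_pow, sq_abs] at h10
    exact h10
  refine final_arith (T := R ^ 2 * C ^ 2 - 1) (q := q) hC0 hCH P.hT8 hw0 hw1 ?_ ?_ h8 hu2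
  · rw [P.hq2, add_mul, P.hrT]
    ring
  · have h9 := mul_le_mul_of_nonneg_right h6 (sq_nonneg C)
    calc (R ^ 2 * C ^ 2 - 1 + 1) * ‖pr u‖ ^ 2 * H ^ 2
        = R ^ 2 * ‖pr u‖ ^ 2 * H ^ 2 * C ^ 2 := by ring
      _ ≤ _ := h9

lemma helly_tr {n : ℕ} (hn : 2 ≤ n) {C R r q δ : ℝ} (P : Par C R r q δ)
    (hC : C = Real.cos (Real.pi / n)) (S : Finset (Fin (n + 2))) (hS : S ≠ Finset.univ) :
    HasTr (hc n δ R) S := by
  have hR0 : 0 < R := by linarith [P.hR]
  have hq0 := P.hq0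
  have hr := P.hr
  have hδ := P.hδ
  have hδ1 := P.hδ1
  have hq' := P.hq
  have hq2 := P.hq2
  obtain ⟨i, hi⟩ : ∃ i, i ∉ S := by
    by_contra hcon
    push Not at hcon
    exact hS (Finset.eq_univ_iff_forall.2 hcon)
  have hz1 : ‖vec 0 1‖ = 1 := norm_one_of_sq (by rw [norm_vec_sq]; simp)
  rcases casesN i with rfl | rfl | ⟨m, rfl⟩
  · refine ⟨vec 0 1, δ, hz1, ?_⟩
    intro j hj
    rcases casesN j with rfl | rfl | ⟨l, rfl⟩
    · exact absurd hj hi
    · rw [hc_one, inner_vec]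
      simp
    · rw [hc_ss, inner_vec]
      simp only [Complex.zero_re, Complex.zero_im, zero_mul, add_zero, mul_zero, zero_sub,
        abs_neg]
      rw [abs_of_pos hδ]
      exact hδ1
  · refine ⟨vec 0 1, -δ, hz1, ?_⟩
    intro j hj
    rcases casesN j with rfl | rfl | ⟨l, rfl⟩
    · rw [hc_zero, inner_vec]
      have : (0 : ℂ).re * (0 : ℂ).re + (0 : ℂ).im * (0 : ℂ).im + 1 * (-1 - δ) - -δ = -1 := by
        simp
      rw [this, abs_neg, abs_one]
    · exact absurd hj hi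
    · rw [hc_ss, inner_vec]
      simp only [Complex.zero_re, Complex.zero_im, zero_mul, add_zero, mul_zero, zero_sub,
        neg_neg]
      rw [abs_of_pos hδ]
      exact hδ1
  · have hvec : ∀ (z : ℂ) (h : ℝ), inner ℝ (vec (((r / q : ℝ) : ℂ) * dr n m) (1 / q)) (vec z h) =
        r / q * ip (dr n m) z + 1 / q * h := by
      intro z h
      rw [inner_vec]
      simp only [ip, Complex.mul_re, Complex.mul_im, Complex.ofReal_re, Complex.ofReal_im]
      ring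
    refine ⟨vec (((r / q : ℝ) : ℂ) * dr n m) (1 / q), 0, ?_, ?_⟩
    · apply norm_one_of_sq
      rw [norm_vec_sq, norm_mul, Complex.norm_real, norm_dr, mul_one, Real.norm_eq_abs, sq_abs,
        div_pow, div_pow, ← add_div, div_eq_one_iff_eq (by positivity), hq2]
      ring
    · intro j hj
      rcases casesN j with rfl | rfl | ⟨l, rfl⟩
      · rw [hc_zero, hvec]
        have : r / q * ip (dr n m) 0 + 1 / q * (-1 - δ) - 0 = -1 := by
          have e : -1 - δ = -q := by linarith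
          rw [e]
          simp only [ip, Complex.zero_re, Complex.zero_im]
          field_simp
          ring
        rw [this, abs_neg, abs_one]
      · rw [hc_one, hvec]
        have : r / q * ip (dr n m) 0 + 1 / q * (1 + δ) - 0 = 1 := by
          rw [hq']
          simp only [ip, Complex.zero_re, Complex.zero_im]
          field_simp
          ring
        rw [this, abs_one]
      · have hml : m ≠ l := fun h => hi (h ▸ hj)
        rw [hc_ss, hvec]
        have h1 : ip (dr n m) ((R : ℂ) * dr n l) =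
            R * Real.cos (m * (Real.pi / n) - l * (Real.pi / n)) := by
          have h3 : ip (dr n m) (dr n l) = Real.cos (m * (Real.pi / n) - l * (Real.pi / n)) :=
            ip_uv _ _
          rw [← h3]
          simp only [ip, Complex.mul_re, Complex.mul_im, Complex.ofReal_re, Complex.ofReal_im]
          ring
        rw [h1, mul_zero, add_zero, sub_zero]
        have h2 : r / q * (R * Real.cos (m * (Real.pi / n) - l * (Real.pi / n))) =
            (R * r) / q * Real.cos (m * (Real.pi / n) - l * (Real.pi / n)) := by ring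
        rw [h2, abs_mul, abs_of_pos (by positivity : 0 < (R * r) / q)]
        calc (R * r) / q * |Real.cos (m * (Real.pi / n) - l * (Real.pi / n))|
            ≤ (R * r) / q * C := by
              rw [hC]
              exact mul_le_mul_of_nonneg_left (far_dir hn hml) (by positivity)
          _ = 1 := by
              rw [div_mul_eq_mul_div, P.hRrC, div_self hq0.ne']

/-- three dimensions -/
theorem helly_three (n : ℕ) (hn : 3 ≤ n) :
    ∃ a : Fin (n + 2) → E 3, Separated (fun i => Metric.closedBall (a i) 1) ∧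
      NoTr a ∧ ∀ S : Finset (Fin (n + 2)), S ≠ Finset.univ → HasTr a S := by
  classical
  have hn' : (3 : ℝ) ≤ n := by exact_mod_cast hn
  have hn0 : (0 : ℝ) < n := by linarith
  have hpi := Real.pi_pos
  have hang0 : 0 < Real.pi / n := div_pos hpi hn0
  have hang1 : Real.pi / n ≤ Real.pi / 3 := div_le_div_of_nonneg_left hpi.le (by norm_num) hn'
  have hhalf : Real.pi / (2 * n) = (Real.pi / n) / 2 := by field_simp
  obtain ⟨C, hC⟩ : ∃ C, C = Real.cos (Real.pi / n) := ⟨_, rfl⟩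
  obtain ⟨H, hH⟩ : ∃ H, H = Real.cos (Real.pi / (2 * n)) := ⟨_, rfl⟩
  have hC0 : 0 < C := by
    rw [hC]
    apply Real.cos_pos_of_mem_Ioo
    constructor <;> linarith
  have hCH : C < H := by
    rw [hC, hH, hhalf]
    apply Real.cos_lt_cos_of_nonneg_of_le_pi
    · linarith
    · linarith
    · linarith
  have hC1 : C < 1 := lt_of_lt_of_le hCH (by rw [hH]; exact Real.cos_le_one _)
  have hcc : 0 < 1 - C ^ 2 := by
    have := pow_lt_one₀ hC0.le hC1 two_ne_zero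
    linarith
  have ev1 : ∀ᶠ R : ℝ in atTop, ∀ f : Fin 3 → Fin (n + 2), Function.Injective f →
      ¬ ((f 0 = 0 ∨ f 1 = 0 ∨ f 2 = 0) ∧ (f 0 = 1 ∨ f 1 = 1 ∨ f 2 = 1)) →
      8 * (1 : ℝ) * R + 4 * (1 : ℝ) ^ 2 <
        R ^ 2 * |cr (WD n (f 1) - WD n (f 0)) (WD n (f 2) - WD n (f 0))| := by
    rw [eventually_all]
    intro f
    by_cases h1 : Function.Injective f
    · by_cases h2 : ((f 0 = 0 ∨ f 1 = 0 ∨ f 2 = 0) ∧ (f 0 = 1 ∨ f 1 = 1 ∨ f 2 = 1))
      · exact Eventually.of_forall fun R _ h => absurd h2 h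
      · have h3 := WD_noncol (n := n) (i := f 0) (j := f 1) (k := f 2)
          (fun h => by simpa using h1 h) (fun h => by simpa using h1 h)
          (fun h => by simpa using h1 h) h2
        filter_upwards [eventually_big _ 1 (abs_pos.2 h3)] with R hR _ _
        exact hR
    · exact Eventually.of_forall fun R h => absurd h h1
  have ev2 : ∀ᶠ R : ℝ in atTop, 4 / (1 - C ^ 2) ≤ R := eventually_ge_atTop _
  have ev3 : ∀ᶠ R : ℝ in atTop, 3 + 3 / C ≤ R := eventually_ge_atTop _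
  obtain ⟨R, hR1, hR2, hR3'⟩ := (ev1.and (ev2.and ev3)).exists
  have h3C : 0 < 3 / C := by positivity
  have hR3 : 3 ≤ R := by linarith
  have hRC : 3 ≤ R * C := by
    have h1 : 3 / C ≤ R := by linarith
    rwa [div_le_iff₀ hC0] at h1
  rw [div_le_iff₀ hcc] at hR2
  obtain ⟨r, q, δ, P⟩ := par_exists hC0 hR3 hR2 hRC
  exact ⟨hc n δ R, helly_sep hR3 P.hδ P.hgap hR1, helly_no (by omega) P hC0 hCH hH,
    helly_tr (by omega) P hC⟩

end Pool.Agent.Y580.GP
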