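import Mathlib
import Pool.Agent.Y580.GP.Helly2

/-!
Raising the dimension of families of unit balls without a transversal hyperplane.
-/

set_option autoImplicit false

open Pool.Agent.Results.MP_2c58a9_co.ManyPerms Filter Topology

namespace Pool.Agent.Y580.GP

/-- a robust form of the absence of transversals -/
lemma robust {k D : ℕ} (a : Fin k → E D) (h : NoTr a) :
    ∃ ε : ℝ, 0 < ε ∧ ε ≤ 1 ∧ ∀ u : E D, ‖u‖ = 1 → ∀ c : ℝ, ∃ i, 1 + ε ≤ |inner ℝ u (a i) - c| := by
  classical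
  by_cases hE : ∃ u : E D, ‖u‖ = 1
  swap
  · exact ⟨1, one_pos, le_rfl, fun u hu => absurd ⟨u, hu⟩ hE⟩
  obtain ⟨u₀, hu₀⟩ := hE
  obtain ⟨i₀, -⟩ := h u₀ hu₀ 0
  set B : ℝ := ∑ i, ‖a i‖ with hB
  have hBi : ∀ i, ‖a i‖ ≤ B := fun i =>
    Finset.single_le_sum (f := fun i => ‖a i‖) (fun j _ => norm_nonneg _) (Finset.mem_univ i)
  have hcont : Continuous fun z : E D × ℝ => ∑ i, max (|inner ℝ z.1 (a i) - z.2| - 1) 0 := by
    fun_prop
  have hcomp : IsCompact ((Metric.sphere (0 : E D) 1) ×ˢ (Set.Icc (-(B + 2)) (B + 2))) :=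
    (isCompact_sphere _ _).prod isCompact_Icc
  obtain ⟨η, hη, hηb⟩ := hcomp.exists_forall_le' hcont.continuousOn (a := 0) (by
    rintro ⟨u, c⟩ ⟨hu, _⟩
    have hu' : ‖u‖ = 1 := by simpa using hu
    obtain ⟨i, hi⟩ := h u hu' c
    show 0 < ∑ i, max (|inner ℝ u (a i) - c| - 1) 0
    apply Finset.sum_pos' (fun j _ => le_max_right _ _)
    exact ⟨i, Finset.mem_univ i, lt_max_of_lt_left (by linarith)⟩)
  have hk : (0 : ℝ) < k := by
    have := i₀.pos
    exact_mod_cast this
  refine ⟨min 1 (η / k), by positivity, min_le_left _ _, ?_⟩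
  intro u hu c
  by_cases hc : c ∈ Set.Icc (-(B + 2)) (B + 2)
  · by_contra hcon
    push Not at hcon
    have h1 := hηb (u, c) ⟨by simpa using hu, hc⟩
    have h2 : ∑ i, max (|inner ℝ u (a i) - c| - 1) 0 < ∑ _i : Fin k, η / k := by
      apply Finset.sum_lt_sum_of_nonempty ⟨i₀, Finset.mem_univ _⟩
      intro i _
      apply max_lt
      · have h3 := hcon i
        have h4 := min_le_right (1 : ℝ) (η / k)
        linarith
      · positivity
    rw [Finset.sum_const, Finset.card_univ, Fintype.card_fin, nsmul_eq_mul] at h2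
    have h5 : (k : ℝ) * (η / k) = η := by field_simp
    rw [h5] at h2
    have h1' : η ≤ ∑ i, max (|inner ℝ u (a i) - c| - 1) 0 := h1
    linarith
  · refine ⟨i₀, ?_⟩
    have h1 : B + 2 < |c| := by
      by_contra hcon
      push Not at hcon
      exact hc (abs_le.1 hcon)
    have h2 : |inner ℝ u (a i₀)| ≤ B := by
      have := abs_real_inner_le_norm u (a i₀)
      rw [hu, one_mul] at this
      exact this.trans (hBi i₀)
    have h3 := abs_sub_abs_le_abs_sub c (inner ℝ u (a i₀))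
    rw [abs_sub_comm] at h3
    have h4 := min_le_left (1 : ℝ) (η / k)
    linarith

/-- inner product with a lifted point -/
lemma inner_lift' {D : ℕ} (u : E (D + 1)) (x : E D) (t : ℝ) :
    inner ℝ u (lift x t) = inner ℝ (prj u) x + u (Fin.last D) * t := by
  rw [PiLp.inner_apply, PiLp.inner_apply, Fin.sum_univ_castSucc]
  simp only [lift_castSucc, lift_last, prj_apply]
  congr 1
  simp [mul_comm]

/-- the lifted centres -/
noncomputable def la {D k : ℕ} (a : Fin (k + 1) → E D) (M : ℝ) (i : Fin (k + 2)) : E (D + 1) :=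
  lift (a (rr k i)) (M ^ (i.1 + 1))

/-- for large heights there is no transversal -/
lemma noTr_ev {D k : ℕ} (a : Fin (k + 1) → E D) (h : NoTr a) : ∀ᶠ M : ℝ in atTop, NoTr (la a M) := by
  obtain ⟨ε, hε, hε1, hrob⟩ := robust a h
  filter_upwards [eventually_gt_atTop (1 + 2 * (2 + ε) / ε), eventually_gt_atTop 3] with M hM hM3
  intro u hu c
  by_contra hcon
  push Not at hcon
  have hM1 : 0 < M - 1 := by linarith
  set η : ℝ := 2 / (M - 1) with hη
  have hη0 : 0 < η := by positivity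
  have hη1 : η < 1 := by
    rw [hη, div_lt_one hM1]
    linarith
  have hηε : η * (2 + ε) < ε := by
    rw [hη, div_mul_eq_mul_div, div_lt_iff₀ hM1]
    have h1 : 2 * (2 + ε) / ε < M - 1 := by linarith
    rw [div_lt_iff₀ hε] at h1
    linarith
  set τ : ℝ := u (Fin.last D) with hτ
  -- the two highest balls
  have h1 := hcon (Fin.last (k + 1))
  have h2 := hcon (Fin.castSucc (Fin.last k))
  have e1 : rr k (Fin.last (k + 1)) = Fin.last k := by
    apply Fin.ext
    simp [rr]
  rw [la, inner_lift', e1] at h1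
  rw [la, inner_lift', rr_castSucc] at h2
  simp only [Fin.val_last, Fin.val_castSucc] at h1 h2
  have hMk : 1 ≤ M ^ (k + 1) := one_le_pow₀ (by linarith)
  have h3 : |τ| * (M ^ (k + 1) * (M - 1)) ≤ 2 := by
    have h4 : |τ * M ^ (k + 1 + 1) - τ * M ^ (k + 1)| ≤ 2 := by
      rw [abs_le] at h1 h2 ⊢
      constructor <;> linarith [h1.1, h1.2, h2.1, h2.2]
    have h5 : τ * M ^ (k + 1 + 1) - τ * M ^ (k + 1) = τ * (M ^ (k + 1) * (M - 1)) := by
      rw [pow_succ]
      ring
    rw [h5, abs_mul, abs_of_pos (by positivity : 0 < M ^ (k + 1) * (M - 1))] at h4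
    exact h4
  have h6 : |τ| * M ^ (k + 1) ≤ η := by
    rw [hη, le_div_iff₀ hM1]
    linarith
  have h7 : |τ| ≤ η := by
    have := abs_nonneg τ
    nlinarith
  have h8 : ∀ j : Fin (k + 1), |inner ℝ (prj u) (a j) - c| ≤ 1 + η := by
    intro j
    have h9 := hcon j.castSucc
    rw [la, inner_lift', rr_castSucc] at h9
    simp only [Fin.val_castSucc] at h9
    have h10 : |τ * M ^ (j.1 + 1)| ≤ η := by
      rw [abs_mul, abs_of_pos (by positivity : 0 < M ^ (j.1 + 1))]
      have h11 : M ^ (j.1 + 1) ≤ M ^ (k + 1) := pow_le_pow_right₀ (by linarith) (by omega)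
      exact (mul_le_mul_of_nonneg_left h11 (abs_nonneg _)).trans h6
    rw [abs_le] at h9 h10 ⊢
    constructor <;> linarith [h9.1, h9.2, h10.1, h10.2]
  have h12 : ‖prj u‖ ^ 2 + τ ^ 2 = 1 := by
    rw [← norm_sq_split, hu, one_pow]
  have h13 : 1 - η ≤ ‖prj u‖ := by
    have h14 : τ ^ 2 ≤ η ^ 2 := by
      rw [← sq_abs τ]
      exact pow_le_pow_left₀ (abs_nonneg _) h7 2
    by_contra hlt
    push Not at hlt
    have h15 : ‖prj u‖ ^ 2 < (1 - η) ^ 2 := by
      exact pow_lt_pow_left₀ hlt (norm_nonneg _) two_ne_zero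
    nlinarith
  have hpos : 0 < ‖prj u‖ := by linarith
  obtain ⟨j, hj⟩ := hrob (‖prj u‖⁻¹ • prj u) (by
    rw [norm_smul, norm_inv, norm_norm, inv_mul_cancel₀ hpos.ne']) (‖prj u‖⁻¹ * c)
  rw [real_inner_smul_left, ← mul_sub, abs_mul, abs_of_pos (inv_pos.2 hpos)] at hj
  have h16 := h8 j
  rw [← div_eq_inv_mul, le_div_iff₀ hpos] at hj
  have h17 : (1 + ε) * (1 - η) ≤ (1 + ε) * ‖prj u‖ := mul_le_mul_of_nonneg_left h13 (by linarith)
  nlinarith

/-- raising the dimension -/
theorem raise_helly {e k : ℕ} (r : ℕ) (a : Fin (k + 1) → E (e + 2))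
    (hs : Separated fun i => Metric.closedBall (a i) 1) (hn : NoTr a)
    (ht : ∀ S : Finset (Fin (k + 1)), S.card ≤ r → HasTr a S) :
    ∃ a' : Fin (k + 2) → E (e + 3), Separated (fun i => Metric.closedBall (a' i) 1) ∧
      NoTr a' ∧ ∀ S : Finset (Fin (k + 2)), S.card ≤ r → HasTr a' S := by
  classical
  obtain ⟨M, hM1, hM2⟩ := ((sep_ev (A := fun i => Metric.closedBall (a i) 1)
    (fun i => isCompact_closedBall _ _) hs a zero_le_one).and (noTr_ev a hn)).exists
  have heq : (LF (fun i => Metric.closedBall (a i) 1) a 1 M) =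
      fun i => Metric.closedBall (la a M i) 1 := by
    funext i
    ext q
    constructor
    · rintro ⟨_, h⟩
      rwa [Metric.mem_closedBall, dist_eq_norm]
    · intro h
      rw [Metric.mem_closedBall, dist_eq_norm] at h
      refine ⟨?_, h⟩
      have h1 := norm_prj_le (q - lift (a (rr k i)) (M ^ (i.1 + 1)))
      rw [map_sub, prj_lift] at h1
      rw [Metric.mem_closedBall, dist_eq_norm]
      exact h1.trans h
  rw [heq] at hM1
  refine ⟨la a M, hM1, hM2, ?_⟩
  intro S hS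
  obtain ⟨u, c, hu, h⟩ := ht (S.image (rr k)) (Finset.card_image_le.trans hS)
  refine ⟨lift u 0, c, by rw [norm_lift_zero, hu], ?_⟩
  intro i hi
  rw [la, inner_lift]
  exact h _ (Finset.mem_image_of_mem _ hi)

/-- all dimensions -/
theorem helly_all (e r : ℕ) : ∃ (k : ℕ) (a : Fin (k + 1) → E (e + 3)),
    Separated (fun i => Metric.closedBall (a i) 1) ∧ NoTr a ∧
      ∀ S : Finset (Fin (k + 1)), S.card ≤ r → HasTr a S := by
  induction e with
  | zero =>
    obtain ⟨a, h1, h2, h3⟩ := helly_three (r + 3) (by omega)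
    refine ⟨r + 4, a, h1, h2, fun S hS => h3 S ?_⟩
    rintro rfl
    rw [Finset.card_univ, Fintype.card_fin] at hS
    omega
  | succ e ih =>
    obtain ⟨k, a, h1, h2, h3⟩ := ih
    obtain ⟨a', h1', h2', h3'⟩ := raise_helly (e := e + 1) r a h1 h2 h3
    exact ⟨k + 1, a', h1', h2', h3'⟩

end Pool.Agent.Y580.GP
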